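import Mathlib

/-!
# The counting functions of the recursion
-/

namespace Pool.Agent.J4H88.ABG

universe u

/-- number of basis elements of degree `n`, weight `w` of `sl_3 ⊗ A ⊕ B`
(`a n = dim A_n`, `b n = dim B_n`) -/
def mlt (a b : ℕ → ℕ) (n : ℕ) (w : ℤ × ℤ) : ℕ :=
  if w = (0, 0) then 2 * a n + b n
  else if w ∈ ([(2, -1), (-1, 2), (1, 1), (-2, 1), (1, -2), (-1, -1)] : List (ℤ × ℤ)) then a n
  else 0

/-- the signed number of finite sets of basis elements of total degree `n` and weight `w` -/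
noncomputable def chi {I : Type u} (deg : I → ℕ) (wt : I → ℤ × ℤ) (n : ℕ) (w : ℤ × ℤ) : ℤ :=
  ∑ᶠ (S : Finset I) (_ : ∑ i ∈ S, deg i = n ∧ ∑ i ∈ S, wt i = w), (-1 : ℤ) ^ S.card

/-- the alternating sum of the values of `f` at `λ + ∑_{α ∈ S} α`, `S` a set of positive roots
(the two terms `λ + θ` cancel) -/
def ph (f : ℤ × ℤ → ℤ) (l : ℤ × ℤ) : ℤ :=
  f l - f (l + (2, -1)) - f (l + (-1, 2)) + f (l + (3, 0)) + f (l + (0, 3)) - f (l + (2, 2))

end Pool.Agent.J4H88.ABG
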