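import Pool.Agent.J4H88.ABG.Basic
import Pool.Agent.J4H88.ABG.Comb

/-!
# Representations of `sl_3`: generators, weight spaces, Casimir operator
-/

namespace Pool.Agent.J4H88.ABG

attribute [local instance 100] LieRing.ofAssociativeRing

universe u v

open LieAlgebra.SpecialLinear

section

variable (𝕜 : Type u) [Field 𝕜]

/-- `E₁₂` -/
def e1 : sl3 𝕜 := single 0 1 (by decide) 1
/-- `E₂₃` -/
def e2 : sl3 𝕜 := single 1 2 (by decide) 1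
/-- `E₁₃ = [E₁₂, E₂₃]` -/
def e3 : sl3 𝕜 := single 0 2 (by decide) 1
/-- `E₂₁` -/
def f1 : sl3 𝕜 := single 1 0 (by decide) 1
/-- `E₃₂` -/
def f2 : sl3 𝕜 := single 2 1 (by decide) 1
/-- `E₃₁` -/
def f3 : sl3 𝕜 := single 2 0 (by decide) 1
/-- `E₁₁ - E₂₂` -/
def h1 : sl3 𝕜 := singleSubSingle 0 1 1
/-- `E₂₂ - E₃₃` -/
def h2 : sl3 𝕜 := singleSubSingle 1 2 1

end

section

variable {𝕜 : Type u} [Field 𝕜] {M : Type v} [AddCommGroup M] [Module 𝕜 M]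

/-- the space of vectors of weight `μ` (eigenvalues of `h1`, `h2`) of a representation of `sl_3` -/
def wtS (φ : sl3 𝕜 →ₗ⁅𝕜⁆ Module.End 𝕜 M) (μ : ℤ × ℤ) : Submodule 𝕜 M where
  carrier := {m | φ (h1 𝕜) m = (μ.1 : 𝕜) • m ∧ φ (h2 𝕜) m = (μ.2 : 𝕜) • m}
  zero_mem' := by simp
  add_mem' := by
    rintro a b ⟨ha, ha'⟩ ⟨hb, hb'⟩
    exact ⟨by rw [map_add, ha, hb, smul_add], by rw [map_add, ha', hb', smul_add]⟩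
  smul_mem' := by
    rintro c a ⟨ha, ha'⟩
    exact ⟨by rw [map_smul, ha, smul_comm], by rw [map_smul, ha', smul_comm]⟩

theorem mem_wtS {φ : sl3 𝕜 →ₗ⁅𝕜⁆ Module.End 𝕜 M} {μ : ℤ × ℤ} {m : M} :
    m ∈ wtS φ μ ↔ φ (h1 𝕜) m = (μ.1 : 𝕜) • m ∧ φ (h2 𝕜) m = (μ.2 : 𝕜) • m := Iff.rfl

/-- three times the Casimir operator (trace form) -/
noncomputable def cas (φ : sl3 𝕜 →ₗ⁅𝕜⁆ Module.End 𝕜 M) : Module.End 𝕜 M :=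
  (6 : 𝕜) • (φ (f1 𝕜) * φ (e1 𝕜) + φ (f2 𝕜) * φ (e2 𝕜) + φ (f3 𝕜) * φ (e3 𝕜))
    + (2 : 𝕜) • (φ (h1 𝕜) * φ (h1 𝕜) + φ (h1 𝕜) * φ (h2 𝕜) + φ (h2 𝕜) * φ (h2 𝕜))
    + (6 : 𝕜) • (φ (h1 𝕜) + φ (h2 𝕜))

end

end Pool.Agent.J4H88.ABG
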