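import Pool.Agent.J4H88.ABG.Lie
import Pool.Agent.J4H88.ABG.Sl3
import Pool.Agent.J4H48.ABG.LieC

/-!
# Derivations of the Allison-Benkart-Gao algebra: the action of `sl_3`, the degree derivation;
a graded basis (JOBS LIE 10, LIE 11, GB)
-/

open scoped TensorProduct

namespace Pool.Agent.J4H88.ABG

attribute [local instance 100] LieRing.ofAssociativeRing

set_option linter.unusedSectionVars false
set_option linter.dupNamespace false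

universe u v

section

variable (𝕜 : Type u) [Field 𝕜] (A : Type v) [NonUnitalNonAssocRing A] [Module 𝕜 A]
  [IsScalarTower 𝕜 A A] [SMulCommClass 𝕜 A A] [IsAlt A] [CharZero 𝕜]

/-- the action of `X ∈ sl_3` on `ABG(A)`: `Y ⊗ p ↦ [X,Y] ⊗ p`, zero on `B(A)` -/
noncomputable def slActL : sl3 𝕜 →ₗ[𝕜] (ABG 𝕜 A →ₗ[𝕜] ABG 𝕜 A) where
  toFun X :=
    { toFun := fun x => ((slBr 𝕜 X).rTensor A x.1, 0)
      map_add' := fun x y => Prod.ext (by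
        change (slBr 𝕜 X).rTensor A (x.1 + y.1) = _
        rw [map_add]; rfl) (by change (0 : BB 𝕜 A) = 0 + 0; simp)
      map_smul' := fun c x => Prod.ext (by
        change (slBr 𝕜 X).rTensor A (c • x.1) = _
        rw [map_smul]; rfl) (by change (0 : BB 𝕜 A) = c • 0; simp) }
  map_add' X Y := by
    refine LinearMap.ext fun x => Prod.ext ?_ ?_
    · change (slBr 𝕜 (X + Y)).rTensor A x.1 = (slBr 𝕜 X).rTensor A x.1 + (slBr 𝕜 Y).rTensor A x.1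
      rw [map_add, LinearMap.rTensor_add, LinearMap.add_apply]
    · change (0 : BB 𝕜 A) = 0 + 0; simp
  map_smul' c X := by
    refine LinearMap.ext fun x => Prod.ext ?_ ?_
    · change (slBr 𝕜 (c • X)).rTensor A x.1 = c • (slBr 𝕜 X).rTensor A x.1
      rw [map_smul, LinearMap.rTensor_smul, LinearMap.smul_apply]
    · change (0 : BB 𝕜 A) = c • 0; simp

theorem slActL_fst (X : sl3 𝕜) (x : ABG 𝕜 A) :
    (slActL 𝕜 A X x).1 = (slBr 𝕜 X).rTensor A x.1 := rfl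

theorem slActL_snd (X : sl3 𝕜) (x : ABG 𝕜 A) : (slActL 𝕜 A X x).2 = 0 := rfl

/-- JOB LIE 10 -/
theorem slActL_lie (X : sl3 𝕜) (x y : ABG 𝕜 A) :
    slActL 𝕜 A X ⁅x, y⁆ = ⁅slActL 𝕜 A X x, y⁆ + ⁅x, slActL 𝕜 A X y⁆ := by
  refine ABG_ext 𝕜 A ?_ ?_
  · rw [ABG_fst_add]
    simp only [slActL_fst, slActL_snd, lie_fst, map_add, map_sub, map_zero, LinearMap.zero_apply,
      J4H48.ABG.rT_brSS, J4H48.ABG.rT_actS]
    abel
  · rw [ABG_snd_add]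
    simp only [slActL_fst, slActL_snd, lie_snd, map_zero, LinearMap.zero_apply, add_zero]
    exact (J4H48.ABG.brSB_rT 𝕜 A X x.1 y.1).symm

/-- the action of `sl_3` on `ABG(A)` by derivations -/
noncomputable def slAct : sl3 𝕜 →ₗ⁅𝕜⁆ LieDerivation 𝕜 (ABG 𝕜 A) (ABG 𝕜 A) where
  toFun X :=
    { toLinearMap := slActL 𝕜 A X
      leibniz' := by
        intro x y
        rw [slActL_lie, ← lie_skew (slActL 𝕜 A X x) y]
        abel }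
  map_add' X Y := by
    ext1 x
    exact congrArg (fun f : ABG 𝕜 A →ₗ[𝕜] ABG 𝕜 A => f x) (map_add (slActL 𝕜 A) X Y)
  map_smul' c X := by
    ext1 x
    exact congrArg (fun f : ABG 𝕜 A →ₗ[𝕜] ABG 𝕜 A => f x) (map_smul (slActL 𝕜 A) c X)
  map_lie' := by
    intro X Y
    ext1 x
    rw [LieDerivation.lie_apply]
    refine Prod.ext ?_ ?_
    · change (slBr 𝕜 ⁅X, Y⁆).rTensor A x.1 = (slBr 𝕜 X).rTensor A ((slBr 𝕜 Y).rTensor A x.1)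
        - (slBr 𝕜 Y).rTensor A ((slBr 𝕜 X).rTensor A x.1)
      have : slBr 𝕜 ⁅X, Y⁆ = slBr 𝕜 X ∘ₗ slBr 𝕜 Y - slBr 𝕜 Y ∘ₗ slBr 𝕜 X := by
        ext1 Z
        change ⁅⁅X, Y⁆, Z⁆ = ⁅X, ⁅Y, Z⁆⁆ - ⁅Y, ⁅X, Z⁆⁆
        rw [lie_lie]
      rw [this, LinearMap.rTensor_sub, LinearMap.rTensor_comp, LinearMap.rTensor_comp]
      rfl
    · change (0 : BB 𝕜 A) = 0 - 0; simp

theorem slAct_apply (X : sl3 𝕜) (x : ABG 𝕜 A) : slAct 𝕜 A X x = slActL 𝕜 A X x := rfl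

variable {A}

/-- a derivation `E` of `A` acts on `ABG(A)`: `X ⊗ p ↦ X ⊗ E p`, `p ∧ q ↦ E p ∧ q + p ∧ E q` -/
noncomputable def derL (E : A →ₗ[𝕜] A) (hE : ∀ x y, E (x * y) = E x * y + x * E y) :
    ABG 𝕜 A →ₗ[𝕜] ABG 𝕜 A :=
  LinearMap.prodMap (E.lTensor (sl3 𝕜)) (BBmap 𝕜 E hE)

/-- JOB LIE 11 -/
theorem derL_lie (E : A →ₗ[𝕜] A) (hE : ∀ x y, E (x * y) = E x * y + x * E y) (x y : ABG 𝕜 A) :
    derL 𝕜 E hE ⁅x, y⁆ = ⁅derL 𝕜 E hE x, y⁆ + ⁅x, derL 𝕜 E hE y⁆ := by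
  have e1 : ∀ z : ABG 𝕜 A, (derL 𝕜 E hE z).1 = E.lTensor (sl3 𝕜) z.1 := fun _ => rfl
  have e2 : ∀ z : ABG 𝕜 A, (derL 𝕜 E hE z).2 = BBmap 𝕜 E hE z.2 := fun _ => rfl
  refine ABG_ext 𝕜 A ?_ ?_
  · rw [ABG_fst_add]
    simp only [e1, e2, lie_fst, map_add, map_sub, J4H48.ABG.lT_brSS 𝕜 E hE,
      J4H48.ABG.lT_actS 𝕜 E hE]
    abel
  · rw [ABG_snd_add]
    simp only [e1, e2, lie_snd, map_add, J4H48.ABG.BBmap_brSB 𝕜 E hE,
      J4H48.ABG.BBmap_BBbr 𝕜 E hE]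
    abel

/-- the derivation of `ABG(A)` given by a derivation of `A` -/
noncomputable def der (E : A →ₗ[𝕜] A) (hE : ∀ x y, E (x * y) = E x * y + x * E y) :
    LieDerivation 𝕜 (ABG 𝕜 A) (ABG 𝕜 A) where
  toLinearMap := derL 𝕜 E hE
  leibniz' := by
    intro x y
    rw [derL_lie, ← lie_skew (derL 𝕜 E hE x) y]
    abel

end

section GB

/-- A graded basis of a Lie algebra with an action of `sl_3` by derivations. -/
structure GrBasis (𝕜 : Type u) [Field 𝕜] (g : Type u) [LieRing g] [LieAlgebra 𝕜 g]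
    (ρ : sl3 𝕜 →ₗ⁅𝕜⁆ LieDerivation 𝕜 g g) (a β : ℕ → ℕ) where
  I : Type u
  ord : LinearOrder I
  c : Module.Basis I 𝕜 g
  dg : I → ℕ
  wt : I → ℤ × ℤ
  E : LieDerivation 𝕜 g g
  hE : ∀ i, E (c i) = (dg i : 𝕜) • c i
  hcomm : ∀ X x, E (ρ X x) = ρ X (E x)
  hw1 : ∀ i, ρ (h1 𝕜) (c i) = ((wt i).1 : 𝕜) • c i
  hw2 : ∀ i, ρ (h2 𝕜) (c i) = ((wt i).2 : 𝕜) • c i
  hdg : ∀ i, 1 ≤ dg i
  hfin : ∀ n, {i | dg i = n}.Finite
  hcount : ∀ n w, 1 ≤ n → {i | dg i = n ∧ wt i = w}.ncard = mlt a β n w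
  hbr : ∀ i, 2 ≤ dg i → c i ∈ Submodule.span 𝕜 {x | ∃ y z : g, x = ⁅y, z⁆}

/- JOB GB: `Pool.Agent.J4H48.ABG.t_GB` (module `Pool.Agent.J4H48.ABG.Gb`) -/

end GB

end Pool.Agent.J4H88.ABG
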