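import Mathlib

/-!
# Alternative algebras, `B(A)`, the operators `D_{p,q}` and the Allison-Benkart-Gao algebra
-/

open scoped TensorProduct

namespace Pool.Agent.J4H88.ABG

attribute [local instance 100] LieRing.ofAssociativeRing

universe u v

/-- alternative algebras: `(pp)q = p(pq)` and `(qp)p = q(pp)` -/
class IsAlt (A : Type*) [NonUnitalNonAssocRing A] : Prop where
  left_alt : ∀ p q : A, (p * p) * q = p * (p * q)
  right_alt : ∀ p q : A, (q * p) * p = q * (p * p)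

/-- the special linear Lie algebra of 3 by 3 matrices of trace zero -/
abbrev sl3 (𝕜 : Type u) [Field 𝕜] : LieSubalgebra 𝕜 (Matrix (Fin 3) (Fin 3) 𝕜) :=
  LieAlgebra.SpecialLinear.sl (Fin 3) 𝕜

section Alg

variable (𝕜 : Type u) [Field 𝕜] (A : Type v) [NonUnitalNonAssocRing A] [Module 𝕜 A]
  [IsScalarTower 𝕜 A A] [SMulCommClass 𝕜 A A]

/-- the relations of `B(A)`: `p ⊗ p` and `pq ⊗ r + qr ⊗ p + rp ⊗ q` -/
def relB : Submodule 𝕜 (A ⊗[𝕜] A) :=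
  Submodule.span 𝕜
    ({x | ∃ p : A, x = p ⊗ₜ p} ∪
      {x | ∃ p q r : A, x = (p * q) ⊗ₜ r + (q * r) ⊗ₜ p + (r * p) ⊗ₜ q})

/-- `B(A) = Λ²(A) / span {pq ∧ r + qr ∧ p + rp ∧ q}` -/
abbrev BB : Type v := (A ⊗[𝕜] A) ⧸ relB 𝕜 A

variable {A}

/-- the class of `p ∧ q` in `B(A)` -/
def wedge : A →ₗ[𝕜] A →ₗ[𝕜] BB 𝕜 A :=
  (TensorProduct.mk 𝕜 A A).compr₂ (relB 𝕜 A).mkQ

/-- the operator `D_{p,q} = [L_p,L_q] + [R_p,R_q] + [L_p,R_q]` -/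
def DD : A →ₗ[𝕜] A →ₗ[𝕜] (A →ₗ[𝕜] A) :=
  LinearMap.mk₂ 𝕜 (fun p q =>
    ((LinearMap.mul 𝕜 A p) ∘ₗ (LinearMap.mul 𝕜 A q) - (LinearMap.mul 𝕜 A q) ∘ₗ (LinearMap.mul 𝕜 A p))
    + (((LinearMap.mul 𝕜 A).flip p) ∘ₗ ((LinearMap.mul 𝕜 A).flip q)
        - ((LinearMap.mul 𝕜 A).flip q) ∘ₗ ((LinearMap.mul 𝕜 A).flip p))
    + ((LinearMap.mul 𝕜 A p) ∘ₗ ((LinearMap.mul 𝕜 A).flip q)
        - ((LinearMap.mul 𝕜 A).flip q) ∘ₗ (LinearMap.mul 𝕜 A p)))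
    (by intro p p' q; ext r; simp [mul_add]; abel)
    (by intro c p q; ext r; simp [smul_add, smul_sub])
    (by intro p q q'; ext r; simp [mul_add]; abel)
    (by intro c p q; ext r; simp [smul_add, smul_sub])

theorem DD_apply (p q r : A) :
    DD 𝕜 p q r = (p * (q * r) - q * (p * r)) + ((r * q) * p - (r * p) * q)
      + (p * (r * q) - (p * r) * q) := by
  simp [DD]

theorem wedge_self (p : A) : wedge 𝕜 p p = 0 := by
  simp only [wedge, LinearMap.compr₂_apply, TensorProduct.mk_apply, Submodule.mkQ_apply,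
    Submodule.Quotient.mk_eq_zero]
  exact Submodule.subset_span (Or.inl ⟨p, rfl⟩)

theorem wedge_cyc (p q r : A) :
    wedge 𝕜 (p * q) r + wedge 𝕜 (q * r) p + wedge 𝕜 (r * p) q = 0 := by
  simp only [wedge, LinearMap.compr₂_apply, TensorProduct.mk_apply, Submodule.mkQ_apply,
    ← Submodule.Quotient.mk_add, Submodule.Quotient.mk_eq_zero]
  exact Submodule.subset_span (Or.inr ⟨p, q, r, rfl⟩)

/-- the Jordan product `p·q = ½(pq+qp)` -/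
noncomputable def jor : A →ₗ[𝕜] A →ₗ[𝕜] A :=
  (2⁻¹ : 𝕜) • (LinearMap.mul 𝕜 A + (LinearMap.mul 𝕜 A).flip)

/-- the commutator `[p,q] = pq - qp` -/
noncomputable def comm : A →ₗ[𝕜] A →ₗ[𝕜] A :=
  LinearMap.mul 𝕜 A - (LinearMap.mul 𝕜 A).flip

variable (A)

section sl

/-- the commutator of `sl_3` as a bilinear map -/
def slBr : sl3 𝕜 →ₗ[𝕜] sl3 𝕜 →ₗ[𝕜] sl3 𝕜 := (LieModule.toEnd 𝕜 (sl3 𝕜) (sl3 𝕜)).toLinearMap

/-- `{X,Y} = ½(XY+YX) - ⅓ tr(XY) I` as a bilinear map with values in all matrices -/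
noncomputable def slAntiAux :
    sl3 𝕜 →ₗ[𝕜] sl3 𝕜 →ₗ[𝕜] Matrix (Fin 3) (Fin 3) 𝕜 :=
  LinearMap.mk₂ 𝕜 (fun X Y => (2⁻¹ : 𝕜) • (X.1 * Y.1 + Y.1 * X.1)
      - ((3⁻¹ : 𝕜) * (X.1 * Y.1).trace) • (1 : Matrix (Fin 3) (Fin 3) 𝕜))
    (by intro X X' Y; simp [add_mul, mul_add, Matrix.trace_add, add_smul]; abel)
    (by intro c X Y; simp [smul_sub, smul_smul]; rw [mul_left_comm, mul_comm (2⁻¹ : 𝕜) c])
    (by intro X Y Y'; simp [add_mul, mul_add, Matrix.trace_add, add_smul]; abel)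
    (by intro c X Y; simp [smul_sub, smul_smul]; rw [mul_left_comm, mul_comm (2⁻¹ : 𝕜) c])

variable [CharZero 𝕜]

/-- `{X,Y} = ½(XY+YX) - ⅓ tr(XY) I` -/
noncomputable def slAnti : sl3 𝕜 →ₗ[𝕜] sl3 𝕜 →ₗ[𝕜] sl3 𝕜 :=
  LinearMap.mk₂ 𝕜 (fun X Y => ⟨slAntiAux 𝕜 X Y, by
      have h3 : (3 : 𝕜) ≠ 0 := by norm_num
      have h2 : (2 : 𝕜) ≠ 0 := by norm_num
      change _ ∈ LinearMap.ker (Matrix.traceLinearMap (Fin 3) 𝕜 𝕜)
      simp only [slAntiAux, LinearMap.mk₂_apply, LinearMap.mem_ker, Matrix.traceLinearMap_apply,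
        Matrix.trace_sub, Matrix.trace_smul, Matrix.trace_add, Matrix.trace_one,
        Matrix.trace_mul_comm Y.1 X.1, smul_eq_mul, Fintype.card_fin]
      push_cast
      field_simp
      ring⟩)
    (by intro X X' Y; ext1; simp)
    (by intro c X Y; ext1; simp)
    (by intro X Y Y'; ext1; simp)
    (by intro c X Y; ext1; simp)

theorem slAnti_coe (X Y : sl3 𝕜) : (slAnti 𝕜 X Y : Matrix (Fin 3) (Fin 3) 𝕜) =
    (2⁻¹ : 𝕜) • (X.1 * Y.1 + Y.1 * X.1)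
      - ((3⁻¹ : 𝕜) * (X.1 * Y.1).trace) • (1 : Matrix (Fin 3) (Fin 3) 𝕜) := rfl

/-- the bilinear form `⅓ tr(XY)` -/
noncomputable def slForm : sl3 𝕜 →ₗ[𝕜] sl3 𝕜 →ₗ[𝕜] 𝕜 :=
  LinearMap.mk₂ 𝕜 (fun X Y => (3⁻¹ : 𝕜) * (X.1 * Y.1).trace)
    (by intro X X' Y; simp [add_mul, mul_add, Matrix.trace_add])
    (by intro c X Y; simp; ring)
    (by intro X Y Y'; simp [mul_add, Matrix.trace_add])
    (by intro c X Y; simp; ring)

end sl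

end Alg

end Pool.Agent.J4H88.ABG
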