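import Mathlib

/-!
# Coordinate subspaces of a vector space with a basis
-/

namespace Pool.Agent.J4H88.ABG

universe u v w

section Coord

variable {𝕜 : Type u} [Field 𝕜] {V : Type v} [AddCommGroup V] [Module 𝕜 V] {J : Type w}
  (B : Module.Basis J 𝕜 V)

/-- the subspace of vectors supported on `T` -/
noncomputable def sup (T : Set J) : Submodule 𝕜 V :=
  (Finsupp.supported 𝕜 𝕜 T).comap (B.repr : V →ₗ[𝕜] J →₀ 𝕜)

theorem mem_sup {T : Set J} {x : V} : x ∈ sup B T ↔ ∀ j, j ∉ T → B.repr x j = 0 := by
  rw [sup, Submodule.mem_comap, Finsupp.mem_supported']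
  rfl

theorem basis_mem_sup {T : Set J} {j : J} (hj : j ∈ T) : B j ∈ sup B T := by
  classical
  rw [mem_sup]
  intro i hi
  rw [B.repr_self, Finsupp.single_apply, if_neg]
  rintro rfl
  exact hi hj

theorem sup_eq_span (T : Set J) : sup B T = Submodule.span 𝕜 (B '' T) := by
  apply le_antisymm
  · intro x hx
    rw [← B.linearCombination_repr x, Finsupp.linearCombination_apply]
    refine Submodule.sum_mem _ fun j hj => ?_
    refine Submodule.smul_mem _ _ (Submodule.subset_span ⟨j, ?_, rfl⟩)
    by_contra h
    exact (Finsupp.mem_support_iff.1 hj) ((mem_sup B).1 hx j h)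
  · rw [Submodule.span_le]
    rintro _ ⟨j, hj, rfl⟩
    exact basis_mem_sup B hj

theorem sup_mono {T T' : Set J} (h : T ⊆ T') : sup B T ≤ sup B T' := by
  intro x hx
  rw [mem_sup] at hx ⊢
  exact fun j hj => hx j (fun h' => hj (h h'))

theorem sup_inter (T T' : Set J) : sup B (T ∩ T') = sup B T ⊓ sup B T' := by
  ext x
  simp only [Submodule.mem_inf, mem_sup, Set.mem_inter_iff, not_and_or]
  constructor
  · exact fun h => ⟨fun j hj => h j (Or.inl hj), fun j hj => h j (Or.inr hj)⟩
  · rintro ⟨h, h'⟩ j (hj | hj)
    · exact h j hj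
    · exact h' j hj

/-- the basis of `sup B T` -/
noncomputable def supBasis (T : Set J) : Module.Basis T 𝕜 (sup B T) :=
  (Module.Basis.span (B.linearIndependent.comp (fun j : T => (j : J)) Subtype.val_injective)).map
    (LinearEquiv.ofEq _ _ (by
      rw [sup_eq_span, Set.range_comp, Subtype.range_coe_subtype]; rfl))

theorem supBasis_coe (T : Set J) (j : T) : ((supBasis B T j : sup B T) : V) = B j := by
  simp [supBasis, Module.Basis.span_apply]

theorem finrank_sup (T : Set J) : Module.finrank 𝕜 (sup B T) = T.ncard := by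
  rw [Module.finrank_eq_nat_card_basis (supBasis B T)]
  rfl

theorem finite_sup {T : Set J} (hT : T.Finite) : FiniteDimensional 𝕜 (sup B T) := by
  have := hT.to_subtype
  exact Module.Finite.of_basis (supBasis B T)

theorem basis_ind {P : V → Prop} (x : V) (coe : ∀ j, P (B j)) (zero : P 0)
    (add : ∀ x y, P x → P y → P (x + y)) (smul : ∀ (c : 𝕜) x, P x → P (c • x)) : P x := by
  have hx : x ∈ Submodule.span 𝕜 (Set.range B) := by rw [B.span_eq]; trivial
  induction hx using Submodule.span_induction with
  | mem x h => obtain ⟨j, rfl⟩ := h; exact coe j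
  | zero => exact zero
  | add x y _ _ hx hy => exact add x y hx hy
  | smul c x _ hx => exact smul c x hx

open Classical in
/-- projection onto the coordinates in `T` -/
noncomputable def pr (T : Set J) : V →ₗ[𝕜] V := B.constr 𝕜 (fun j => if j ∈ T then B j else 0)

open Classical in
theorem pr_basis (T : Set J) (j : J) : pr B T (B j) = if j ∈ T then B j else 0 := by
  rw [pr, B.constr_basis]

theorem pr_of_mem {T : Set J} {x : V} (hx : x ∈ sup B T) : pr B T x = x := by
  classical
  rw [sup_eq_span] at hx
  induction hx using Submodule.span_induction with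
  | mem x h =>
    obtain ⟨j, hj, rfl⟩ := h
    rw [pr_basis, if_pos hj]
  | zero => simp
  | add x y _ _ hx hy => rw [map_add, hx, hy]
  | smul c x _ hx => rw [map_smul, hx]

theorem pr_of_mem_compl {T : Set J} {x : V} (hx : x ∈ sup B Tᶜ) : pr B T x = 0 := by
  classical
  rw [sup_eq_span] at hx
  induction hx using Submodule.span_induction with
  | mem x h =>
    obtain ⟨j, hj, rfl⟩ := h
    rw [pr_basis, if_neg hj]
  | zero => simp
  | add x y _ _ hx hy => rw [map_add, hx, hy, add_zero]
  | smul c x _ hx => rw [map_smul, hx, smul_zero]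

theorem pr_mem (T : Set J) (x : V) : pr B T x ∈ sup B T := by
  classical
  induction x using basis_ind B with
  | coe j =>
    rw [pr_basis]
    split_ifs with h
    · exact basis_mem_sup B h
    · exact Submodule.zero_mem _
  | zero => simp
  | add x y hx hy => rw [map_add]; exact Submodule.add_mem _ hx hy
  | smul c x hx => rw [map_smul]; exact Submodule.smul_mem _ _ hx

/-- a projection preserves every coordinate subspace -/
theorem pr_mem' (T T' : Set J) {x : V} (hx : x ∈ sup B T') : pr B T x ∈ sup B T' := by
  classical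
  rw [sup_eq_span] at hx
  induction hx using Submodule.span_induction with
  | mem x h =>
    obtain ⟨j, hj, rfl⟩ := h
    rw [pr_basis]
    split_ifs with h
    · exact basis_mem_sup B hj
    · exact Submodule.zero_mem _
  | zero => simp
  | add x y _ _ hx hy => rw [map_add]; exact Submodule.add_mem _ hx hy
  | smul c x _ hx => rw [map_smul]; exact Submodule.smul_mem _ _ hx

theorem pr_comm (T : Set J) (f : V →ₗ[𝕜] V) (h1 : ∀ j ∈ T, f (B j) ∈ sup B T)
    (h2 : ∀ j ∉ T, f (B j) ∈ sup B Tᶜ) (x : V) : f (pr B T x) = pr B T (f x) := by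
  classical
  have : f ∘ₗ pr B T = pr B T ∘ₗ f := by
    refine B.ext fun j => ?_
    simp only [LinearMap.comp_apply, pr_basis]
    by_cases hj : j ∈ T
    · rw [if_pos hj, pr_of_mem B (h1 j hj)]
    · rw [if_neg hj, pr_of_mem_compl B (h2 j hj), map_zero]
  exact congrArg (fun f : V →ₗ[𝕜] V => f x) this

open Classical in
theorem pr_repr (T : Set J) (x : V) (j : J) :
    B.repr (pr B T x) j = if j ∈ T then B.repr x j else 0 := by
  induction x using basis_ind B with
  | coe i =>
    rw [pr_basis]
    by_cases hi : i ∈ T
    · rw [if_pos hi, B.repr_self, Finsupp.single_apply]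
      by_cases h : i = j
      · subst h; simp [hi]
      · simp [h]
    · rw [if_neg hi, B.repr_self, Finsupp.single_apply]
      by_cases h : i = j
      · subst h; simp [hi]
      · simp [h]
  | zero => simp
  | add x y hx hy =>
    simp only [map_add, Finsupp.add_apply, hx, hy]; split_ifs <;> simp
  | smul c x hx => simp only [map_smul, Finsupp.smul_apply, hx]; split_ifs <;> simp

/-- eigenvectors of a diagonal operator -/
theorem diag_repr (T : V →ₗ[𝕜] V) (f : J → 𝕜) (hT : ∀ j, T (B j) = f j • B j) (x : V) (j : J) :
    B.repr (T x) j = f j * B.repr x j := by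
  classical
  induction x using basis_ind B with
  | coe i =>
    rw [hT, map_smul, Finsupp.smul_apply, B.repr_self, Finsupp.single_apply]
    split_ifs with h
    · rw [h, smul_eq_mul]
    · simp
  | zero => simp
  | add x y hx hy => simp only [map_add, Finsupp.add_apply, hx, hy, mul_add]
  | smul c x hx => simp only [map_smul, Finsupp.smul_apply, smul_eq_mul, hx]; ring

theorem diag_eigen (T : V →ₗ[𝕜] V) (f : J → 𝕜) (hT : ∀ j, T (B j) = f j • B j) (c : 𝕜) (x : V) :
    T x = c • x ↔ x ∈ sup B {j | f j = c} := by
  rw [mem_sup]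
  constructor
  · intro h j hj
    have := congrArg (fun y => B.repr y j) h
    simp only [diag_repr B T f hT, map_smul, Finsupp.smul_apply, smul_eq_mul] at this
    have h' : (f j - c) * B.repr x j = 0 := by rw [sub_mul, this, sub_self]
    rcases mul_eq_zero.1 h' with h'' | h''
    · exact absurd (sub_eq_zero.1 h'') hj
    · exact h''
  · intro h
    refine B.ext_elem fun j => ?_
    rw [diag_repr B T f hT, map_smul, Finsupp.smul_apply, smul_eq_mul]
    by_cases hj : f j = c
    · rw [hj]
    · rw [h j hj]; simp

end Coord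

end Pool.Agent.J4H88.ABG
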