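import Mathlib

/-!
# Lie algebra homology: the Chevalley-Eilenberg complex on the exterior algebra
-/

namespace Pool.Agent.J4H88.ABG

universe u v

open ExteriorAlgebra

section

variable (𝕜 : Type u) [Field 𝕜] {g : Type v} [AddCommGroup g] [Module 𝕜 g]

/-- The derivation of the exterior algebra extending a linear map `D : g → g`. -/
noncomputable def extD (D : g →ₗ[𝕜] g) : ExteriorAlgebra 𝕜 g →ₗ[𝕜] ExteriorAlgebra 𝕜 g :=
  CliffordAlgebra.foldr' (0 : QuadraticForm 𝕜 g)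
    (LinearMap.mk₂ 𝕜 (fun (x : g) (y : ExteriorAlgebra 𝕜 g × ExteriorAlgebra 𝕜 g) =>
        ι 𝕜 (D x) * y.1 + ι 𝕜 x * y.2)
      (by intro x x' y; simp only [map_add, add_mul]; abel)
      (by intro c x y; simp only [map_smul, smul_mul_assoc, smul_add])
      (by intro x y y'; simp only [Prod.fst_add, Prod.snd_add, mul_add]; abel)
      (by intro c x y; simp only [Prod.smul_fst, Prod.smul_snd, mul_smul_comm, smul_add]))
    (by
      intro m x fx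
      have h1 : ι 𝕜 (D m) * ι 𝕜 m + ι 𝕜 m * ι 𝕜 (D m) = 0 := ExteriorAlgebra.ι_add_mul_swap _ _
      have h2 : ι 𝕜 m * ι 𝕜 m = 0 := ExteriorAlgebra.ι_sq_zero _
      have e : ι 𝕜 (D m) * (ι 𝕜 m * x) + ι 𝕜 m * (ι 𝕜 (D m) * x + ι 𝕜 m * fx)
        = (ι 𝕜 (D m) * ι 𝕜 m + ι 𝕜 m * ι 𝕜 (D m)) * x + (ι 𝕜 m * ι 𝕜 m) * fx := by
        noncomm_ring
      simp only [LinearMap.mk₂_apply]
      refine e.trans ?_
      rw [h1, h2]; simp)
    0

theorem extD_algebraMap (D : g →ₗ[𝕜] g) (c : 𝕜) : extD 𝕜 D (algebraMap 𝕜 _ c) = 0 := by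
  have h := CliffordAlgebra.foldr'_algebraMap (0 : QuadraticForm 𝕜 g)
    (LinearMap.mk₂ 𝕜 (fun (x : g) (y : ExteriorAlgebra 𝕜 g × ExteriorAlgebra 𝕜 g) =>
        ι 𝕜 (D x) * y.1 + ι 𝕜 x * y.2)
      (by intro x x' y; simp only [map_add, add_mul]; abel)
      (by intro c x y; simp only [map_smul, smul_mul_assoc, smul_add])
      (by intro x y y'; simp only [Prod.fst_add, Prod.snd_add, mul_add]; abel)
      (by intro c x y; simp only [Prod.smul_fst, Prod.smul_snd, mul_smul_comm, smul_add]))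
    (by
      intro m x fx
      have h1 : ι 𝕜 (D m) * ι 𝕜 m + ι 𝕜 m * ι 𝕜 (D m) = 0 := ExteriorAlgebra.ι_add_mul_swap _ _
      have h2 : ι 𝕜 m * ι 𝕜 m = 0 := ExteriorAlgebra.ι_sq_zero _
      have e : ι 𝕜 (D m) * (ι 𝕜 m * x) + ι 𝕜 m * (ι 𝕜 (D m) * x + ι 𝕜 m * fx)
        = (ι 𝕜 (D m) * ι 𝕜 m + ι 𝕜 m * ι 𝕜 (D m)) * x + (ι 𝕜 m * ι 𝕜 m) * fx := by
        noncomm_ring
      simp only [LinearMap.mk₂_apply]
      refine e.trans ?_
      rw [h1, h2]; simp) (0 : ExteriorAlgebra 𝕜 g) c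
  rw [smul_zero] at h
  exact h

theorem extD_one (D : g →ₗ[𝕜] g) : extD 𝕜 D 1 = 0 := by
  have := extD_algebraMap 𝕜 D 1
  rwa [map_one] at this

theorem extD_ι_mul (D : g →ₗ[𝕜] g) (x : g) (u : ExteriorAlgebra 𝕜 g) :
    extD 𝕜 D (ι 𝕜 x * u) = ι 𝕜 (D x) * u + ι 𝕜 x * extD 𝕜 D u := by
  exact CliffordAlgebra.foldr'_ι_mul (0 : QuadraticForm 𝕜 g) _ _ _ _ _

theorem extD_ι (D : g →ₗ[𝕜] g) (x : g) : extD 𝕜 D (ι 𝕜 x) = ι 𝕜 (D x) := by
  have h := extD_ι_mul 𝕜 D x 1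
  rwa [mul_one, mul_one, extD_one, mul_zero, add_zero] at h

variable {𝕜} in
/-- induction on the exterior algebra by left multiplication with vectors -/
theorem ext_induction {P : ExteriorAlgebra 𝕜 g → Prop} (u : ExteriorAlgebra 𝕜 g)
    (h0 : ∀ c : 𝕜, P (algebraMap 𝕜 _ c)) (hadd : ∀ u v, P u → P v → P (u + v))
    (hmul : ∀ (x : g) (u), P u → P (ι 𝕜 x * u)) : P u :=
  CliffordAlgebra.left_induction (0 : QuadraticForm 𝕜 g) h0 (fun x y hx hy => hadd x y hx hy)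
    (fun m x hx => hmul x m hx) u

theorem extD_add (D D' : g →ₗ[𝕜] g) : extD 𝕜 (D + D') = extD 𝕜 D + extD 𝕜 D' := by
  refine LinearMap.ext fun u => ?_
  induction u using ext_induction with
  | h0 c => simp [extD_algebraMap]
  | hadd u v hu hv => simp only [map_add, hu, hv]
  | hmul x u hu =>
    simp only [extD_ι_mul, LinearMap.add_apply, map_add, hu]
    noncomm_ring

theorem extD_smul (c : 𝕜) (D : g →ₗ[𝕜] g) : extD 𝕜 (c • D) = c • extD 𝕜 D := by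
  refine LinearMap.ext fun u => ?_
  induction u using ext_induction with
  | h0 c => simp [extD_algebraMap]
  | hadd u v hu hv => simp only [map_add, hu, hv]
  | hmul x u hu =>
    simp only [extD_ι_mul, LinearMap.smul_apply, map_smul, hu, smul_mul_assoc, mul_smul_comm,
      smul_add]

/-- `extD` as a linear map -/
noncomputable def extDL : (g →ₗ[𝕜] g) →ₗ[𝕜] (ExteriorAlgebra 𝕜 g →ₗ[𝕜] ExteriorAlgebra 𝕜 g) where
  toFun := extD 𝕜
  map_add' := extD_add 𝕜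
  map_smul' := extD_smul 𝕜

theorem extD_comm (D D' : g →ₗ[𝕜] g) (u : ExteriorAlgebra 𝕜 g) :
    extD 𝕜 (D ∘ₗ D' - D' ∘ₗ D) u = extD 𝕜 D (extD 𝕜 D' u) - extD 𝕜 D' (extD 𝕜 D u) := by
  induction u using ext_induction with
  | h0 c => simp [extD_algebraMap]
  | hadd u v hu hv => simp only [map_add, hu, hv]; abel
  | hmul x u hu =>
    simp only [extD_ι_mul, LinearMap.sub_apply, LinearMap.comp_apply, map_sub, map_add, hu]
    noncomm_ring

end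

section Lie

variable (𝕜 : Type u) [Field 𝕜] (g : Type v) [LieRing g] [LieAlgebra 𝕜 g]

/-- The Chevalley-Eilenberg differential on the exterior algebra of a Lie algebra, characterised by
`bd 1 = 0` and `bd (x ∧ u) = ad_x(u) - x ∧ bd u`; explicitly
`bd (x₁ ∧ ⋯ ∧ xₖ) = ∑_{i<j} (-1)^(i+j+1) [xᵢ,xⱼ] ∧ x₁ ∧ ⋯ x̂ᵢ ⋯ x̂ⱼ ⋯ ∧ xₖ`. -/
noncomputable def bd : ExteriorAlgebra 𝕜 g →ₗ[𝕜] ExteriorAlgebra 𝕜 g :=
  CliffordAlgebra.foldr' (0 : QuadraticForm 𝕜 g)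
    (LinearMap.mk₂ 𝕜 (fun (x : g) (y : ExteriorAlgebra 𝕜 g × ExteriorAlgebra 𝕜 g) =>
        extD 𝕜 (LieAlgebra.ad 𝕜 g x : g →ₗ[𝕜] g) y.1 - ι 𝕜 x * y.2)
      (by
        intro x x' y
        have := congrArg (fun f => f y.1) (extD_add 𝕜 (LieAlgebra.ad 𝕜 g x : g →ₗ[𝕜] g)
          (LieAlgebra.ad 𝕜 g x' : g →ₗ[𝕜] g))
        simp only [map_add, add_mul] at this ⊢
        rw [this]
        simp only [LinearMap.add_apply]
        abel)
      (by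
        intro c x y
        have := congrArg (fun f => f y.1) (extD_smul 𝕜 c (LieAlgebra.ad 𝕜 g x : g →ₗ[𝕜] g))
        simp only [map_smul, smul_mul_assoc, smul_sub] at this ⊢
        rw [this]
        simp only [LinearMap.smul_apply])
      (by intro x y y'; simp only [Prod.fst_add, Prod.snd_add, mul_add, map_add]; abel)
      (by intro c x y; simp only [Prod.smul_fst, Prod.smul_snd, mul_smul_comm, map_smul, smul_sub]))
    (by
      intro m x fx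
      have h2 : ι 𝕜 m * ι 𝕜 m = 0 := ExteriorAlgebra.ι_sq_zero _
      have e : extD 𝕜 (LieAlgebra.ad 𝕜 g m : g →ₗ[𝕜] g) (ι 𝕜 m * x)
          - ι 𝕜 m * (extD 𝕜 (LieAlgebra.ad 𝕜 g m : g →ₗ[𝕜] g) x - ι 𝕜 m * fx) = 0 := by
        rw [extD_ι_mul, LieAlgebra.ad_apply, lie_self, map_zero, zero_mul, zero_add, mul_sub,
          ← mul_assoc (ι 𝕜 m) (ι 𝕜 m) fx, h2, zero_mul, sub_zero, sub_self]
      simp only [LinearMap.mk₂_apply]
      refine e.trans ?_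
      simp)
    0

theorem bd_algebraMap (c : 𝕜) : bd 𝕜 g (algebraMap 𝕜 _ c) = 0 := by
  have h : bd 𝕜 g (algebraMap 𝕜 _ c) = c • (0 : ExteriorAlgebra 𝕜 g) :=
    CliffordAlgebra.foldr'_algebraMap (0 : QuadraticForm 𝕜 g) _ _ _ _
  rwa [smul_zero] at h

theorem bd_one : bd 𝕜 g 1 = 0 := by
  have := bd_algebraMap 𝕜 g 1
  rwa [map_one] at this

theorem bd_ι_mul (x : g) (u : ExteriorAlgebra 𝕜 g) :
    bd 𝕜 g (ι 𝕜 x * u) = extD 𝕜 (LieAlgebra.ad 𝕜 g x : g →ₗ[𝕜] g) u - ι 𝕜 x * bd 𝕜 g u :=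
  CliffordAlgebra.foldr'_ι_mul (0 : QuadraticForm 𝕜 g) _ _ _ _ _

theorem bd_ι (x : g) : bd 𝕜 g (ι 𝕜 x) = 0 := by
  have h := bd_ι_mul 𝕜 g x 1
  rwa [mul_one, extD_one, bd_one, mul_zero, sub_zero] at h

theorem bd_ι_mul_ι (x y : g) : bd 𝕜 g (ι 𝕜 x * ι 𝕜 y) = ι 𝕜 ⁅x, y⁆ := by
  rw [bd_ι_mul, extD_ι, bd_ι, mul_zero, sub_zero]; rfl

/-- the derivation extension of a Lie derivation commutes with the differential -/
theorem bd_extD (D : LieDerivation 𝕜 g g) (u : ExteriorAlgebra 𝕜 g) :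
    bd 𝕜 g (extD 𝕜 (D : g →ₗ[𝕜] g) u) = extD 𝕜 (D : g →ₗ[𝕜] g) (bd 𝕜 g u) := by
  induction u using ext_induction with
  | h0 c => simp [extD_algebraMap, bd_algebraMap]
  | hadd u v hu hv => simp only [map_add, hu, hv]
  | hmul x u hu =>
    have e := extD_comm 𝕜 (D : g →ₗ[𝕜] g) (LieAlgebra.ad 𝕜 g x : g →ₗ[𝕜] g) u
    have e' : ((D : g →ₗ[𝕜] g) ∘ₗ (LieAlgebra.ad 𝕜 g x : g →ₗ[𝕜] g)
        - (LieAlgebra.ad 𝕜 g x : g →ₗ[𝕜] g) ∘ₗ (D : g →ₗ[𝕜] g))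
        = (LieAlgebra.ad 𝕜 g (D x) : g →ₗ[𝕜] g) := by
      ext y
      simp only [LinearMap.sub_apply, LinearMap.comp_apply, LieAlgebra.ad_apply]
      have := D.apply_lie_eq_add x y
      change D ⁅x, y⁆ - ⁅x, D y⁆ = ⁅D x, y⁆
      rw [this]; abel
    rw [e'] at e
    have eD : (D : g →ₗ[𝕜] g) x = D x := rfl
    simp only [extD_ι_mul, bd_ι_mul, map_add, map_sub, hu, eD, e]
    noncomm_ring

theorem bd_bd (u : ExteriorAlgebra 𝕜 g) : bd 𝕜 g (bd 𝕜 g u) = 0 := by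
  induction u using ext_induction with
  | h0 c => simp [bd_algebraMap]
  | hadd u v hu hv => simp only [map_add, hu, hv, add_zero]
  | hmul x u hu =>
    have e := bd_extD 𝕜 g (LieDerivation.ad 𝕜 g x) u
    have e' : ((LieDerivation.ad 𝕜 g x : LieDerivation 𝕜 g g) : g →ₗ[𝕜] g)
        = (LieAlgebra.ad 𝕜 g x : g →ₗ[𝕜] g) := by
      ext y; simp
    rw [e'] at e
    rw [bd_ι_mul, map_sub, e, bd_ι_mul, hu]
    simp

end Lie

end Pool.Agent.J4H88.ABG
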