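import Pool.Agent.J4H88.ABG.Hom

/-!
# Free alternative algebras and Allison-Benkart-Gao Lie algebras, described by their properties
-/

open scoped TensorProduct

namespace Pool.Agent.J4H88.ABG

universe u

/-- alternative algebras: `(pp)q = p(pq)` and `(qp)p = q(pp)` -/
def IsAlternative (A : Type u) [NonUnitalNonAssocRing A] : Prop :=
  ∀ p q : A, (p * p) * q = p * (p * q) ∧ (q * p) * p = q * (p * p)

/-- `A` is the free non-unital alternative algebra on the vectors `x i`: it is alternative, and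
every map from the `x i` to an alternative algebra `B` extends to exactly one homomorphism -/
def IsFreeAlt (𝕜 : Type u) [Field 𝕜] (A : Type u) [NonUnitalNonAssocRing A] [Module 𝕜 A]
    [IsScalarTower 𝕜 A A] [SMulCommClass 𝕜 A A] {ι : Type} (x : ι → A) : Prop :=
  IsAlternative A ∧
    ∀ (B : Type u) [NonUnitalNonAssocRing B] [Module 𝕜 B] [IsScalarTower 𝕜 B B]
      [SMulCommClass 𝕜 B B], IsAlternative B → ∀ y : ι → B, ∃! f : A →ₙₐ[𝕜] B, ∀ i, f (x i) = y i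

/-- the space `sl_3` of 3 by 3 matrices of trace zero -/
def SL3 (𝕜 : Type u) [Field 𝕜] : Submodule 𝕜 (Matrix (Fin 3) (Fin 3) 𝕜) :=
  LinearMap.ker (Matrix.traceLinearMap (Fin 3) 𝕜 𝕜)

/-- `D_{p,q} r` for `D_{p,q} = [L_p,L_q] + [R_p,R_q] + [L_p,R_q]` -/
def dpq {A : Type u} [NonUnitalNonAssocRing A] (p q r : A) : A :=
  (p * (q * r) - q * (p * r)) + ((r * q) * p - (r * p) * q) + (p * (r * q) - (p * r) * q)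

/-- The Lie algebra `g` with the maps `s` and `w` is the Allison-Benkart-Gao Lie algebra
`sl_3 ⊗ A ⊕ B(A)`, where `s X p` stands for `X ⊗ p` and `w p q` for `p ∧ q`, and `a X` is the action
of `X ∈ sl_3` on it. -/
def IsABG (𝕜 : Type u) [Field 𝕜] (A : Type u) [NonUnitalNonAssocRing A] [Module 𝕜 A]
    (g : Type u) [LieRing g] [LieAlgebra 𝕜 g] (s : SL3 𝕜 →ₗ[𝕜] A →ₗ[𝕜] g)
    (w : A →ₗ[𝕜] A →ₗ[𝕜] g) (a : SL3 𝕜 →ₗ[𝕜] g →ₗ[𝕜] g) : Prop :=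
  -- `g = (sl_3 ⊗ A) ⊕ B(A)` with `B(A) = (A ⊗ A) / span {p ⊗ p, pq ⊗ r + qr ⊗ p + rp ⊗ q}`
  Function.Injective (TensorProduct.lift s) ∧
  LinearMap.ker (TensorProduct.lift w) = Submodule.span 𝕜
    ({t | ∃ p : A, t = p ⊗ₜ p} ∪
      {t | ∃ p q r : A, t = (p * q) ⊗ₜ r + (q * r) ⊗ₜ p + (r * p) ⊗ₜ q}) ∧
  IsCompl (LinearMap.range (TensorProduct.lift s)) (LinearMap.range (TensorProduct.lift w)) ∧
  -- `[X ⊗ p, Y ⊗ q] = [X,Y] ⊗ p·q + {X,Y} ⊗ [p,q] + ⅓ tr(XY) p ∧ q`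
  (∀ (X Y C J : SL3 𝕜) (p q : A), C.1 = X.1 * Y.1 - Y.1 * X.1 →
    J.1 = (2⁻¹ : 𝕜) • (X.1 * Y.1 + Y.1 * X.1) - ((3⁻¹ : 𝕜) * (X.1 * Y.1).trace) • 1 →
    ⁅s X p, s Y q⁆ = s C ((2⁻¹ : 𝕜) • (p * q + q * p)) + s J (p * q - q * p)
      + ((3⁻¹ : 𝕜) * (X.1 * Y.1).trace) • w p q) ∧
  -- `[p ∧ q, X ⊗ r] = X ⊗ D_{p,q} r`
  (∀ (X : SL3 𝕜) (p q r : A), ⁅w p q, s X r⁆ = s X (dpq p q r)) ∧
  -- `[p ∧ q, r ∧ t] = D_{p,q} r ∧ t + r ∧ D_{p,q} t`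
  (∀ p q r t : A, ⁅w p q, w r t⁆ = w (dpq p q r) t + w r (dpq p q t)) ∧
  -- `X · (Y ⊗ p) = [X,Y] ⊗ p`, `X · (p ∧ q) = 0`
  (∀ (X Y C : SL3 𝕜) (p : A), C.1 = X.1 * Y.1 - Y.1 * X.1 → a X (s Y p) = s C p) ∧
  (∀ (X : SL3 𝕜) (p q : A), a X (w p q) = 0)

/-- `H_k(g, 𝕜) = Z_k / B_k` has a direct summand isomorphic to the trivial module `𝕜`: there are a
class `z` annihilated by the `sl_3`-action induced by `a` and an equivariant linear form `r` on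
`Z_k / B_k` (given by a linear form vanishing on `B_k`) with `r z = 1` -/
def HasTrivialSummand (𝕜 : Type u) [Field 𝕜] (g : Type u) [LieRing g] [LieAlgebra 𝕜 g]
    (a : SL3 𝕜 →ₗ[𝕜] g →ₗ[𝕜] g) (k : ℕ) : Prop :=
  ∃ (z : ExteriorAlgebra 𝕜 g) (r : ExteriorAlgebra 𝕜 g →ₗ[𝕜] 𝕜),
    z ∈ ZZ 𝕜 g k ∧ (∀ X : SL3 𝕜, extD 𝕜 (a X) z ∈ BZ 𝕜 g k) ∧
    (∀ u ∈ BZ 𝕜 g k, r u = 0) ∧ (∀ X : SL3 𝕜, ∀ u ∈ ZZ 𝕜 g k, r (extD 𝕜 (a X) u) = 0) ∧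
    r z = 1

/-- `H_k(g, 𝕜) = Z_k / B_k` has a direct summand isomorphic to the adjoint module `sl_3`: there are
`sl_3`-equivariant linear maps `f : sl_3 → Z_k / B_k` and `r : Z_k / B_k → sl_3` (given by a linear
map `f` into `Z_k` and a linear map `r` vanishing on `B_k`) with `r ∘ f = id` -/
def HasAdjointSummand (𝕜 : Type u) [Field 𝕜] (g : Type u) [LieRing g] [LieAlgebra 𝕜 g]
    (a : SL3 𝕜 →ₗ[𝕜] g →ₗ[𝕜] g) (k : ℕ) : Prop :=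
  ∃ (f : SL3 𝕜 →ₗ[𝕜] ExteriorAlgebra 𝕜 g) (r : ExteriorAlgebra 𝕜 g →ₗ[𝕜] SL3 𝕜),
    (∀ X, f X ∈ ZZ 𝕜 g k) ∧
    (∀ X Y C : SL3 𝕜, C.1 = X.1 * Y.1 - Y.1 * X.1 → f C - extD 𝕜 (a X) (f Y) ∈ BZ 𝕜 g k) ∧
    (∀ u ∈ BZ 𝕜 g k, r u = 0) ∧
    (∀ X : SL3 𝕜, ∀ u ∈ ZZ 𝕜 g k, (r (extD 𝕜 (a X) u)).1 = X.1 * (r u).1 - (r u).1 * X.1) ∧
    ∀ X, r (f X) = X

end Pool.Agent.J4H88.ABG
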