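import Pool.Agent.J4H88.ABG.Main2
import Pool.Agent.J4H88.ABG.Stmt
import Pool.Agent.J4H48.ABG.Gb
import Pool.Agent.J4H71.ABG.FaBasis
import Pool.Agent.J4H19.ABG.Num

/-!
# The Euler characteristic argument for the free alternative algebra of rank 4, and the
verification of the properties used in the statement
-/

open scoped TensorProduct

namespace Pool.Agent.J4H88.ABG

universe u v w

attribute [local instance 100] LieRing.ofAssociativeRing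

theorem hh_result (𝕜 : Type u) [Field 𝕜] [CharZero 𝕜] :
    ∃ k : ℕ, 2 ≤ k ∧
      ((∃ (x : HH 𝕜 (ABG 𝕜 (Alt 𝕜 (Fin 4))) k) (r : HH 𝕜 (ABG 𝕜 (Alt 𝕜 (Fin 4))) k →ₗ[𝕜] 𝕜),
          r x = 1 ∧
          (∀ X, hRep 𝕜 (ABG 𝕜 (Alt 𝕜 (Fin 4))) (slAct 𝕜 (Alt 𝕜 (Fin 4))) k X x = 0) ∧
          ∀ X y, r (hRep 𝕜 (ABG 𝕜 (Alt 𝕜 (Fin 4))) (slAct 𝕜 (Alt 𝕜 (Fin 4))) k X y) = 0) ∨
        (∃ (f : sl3 𝕜 →ₗ[𝕜] HH 𝕜 (ABG 𝕜 (Alt 𝕜 (Fin 4))) k)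
          (r : HH 𝕜 (ABG 𝕜 (Alt 𝕜 (Fin 4))) k →ₗ[𝕜] sl3 𝕜), (∀ X, r (f X) = X) ∧
          (∀ X Y : sl3 𝕜, f ⁅X, Y⁆
            = hRep 𝕜 (ABG 𝕜 (Alt 𝕜 (Fin 4))) (slAct 𝕜 (Alt 𝕜 (Fin 4))) k X (f Y)) ∧
          ∀ X y, r (hRep 𝕜 (ABG 𝕜 (Alt 𝕜 (Fin 4))) (slAct 𝕜 (Alt 𝕜 (Fin 4))) k X y)
            = ⁅X, r y⁆)) := by
  by_contra hcon
  obtain ⟨ι, b, deg, E, hE, hder, hd1, hfin, hm, hlow, hprod⟩ :=
    Pool.Agent.J4H71.ABG.alt_basis (𝕜 := 𝕜) 4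
  obtain ⟨β, hβ, ⟨G⟩⟩ := Pool.Agent.J4H48.ABG.t_GB 𝕜 (Alt 𝕜 (Fin 4)) b deg E hE hder hd1 hfin hprod
  have key := G.main2
    (fun k hk h => hcon ⟨k, hk, Or.inl h⟩)
    (fun k hk h => hcon ⟨k, hk, Or.inr h⟩)
  have h9 : {i | deg i = 9}.ncard = 261176 := Pool.Agent.J4H19.ABG.t_NUM G.dg G.wt G.hdg _ β G.hfin
    G.hcount hm hβ (fun n hn _ => (key n hn).1) (fun n hn _ => (key n hn).2)
  have hl := hlow 9 (by norm_num)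
  rw [h9] at hl
  norm_num at hl

section chain

variable (𝕜 : Type u) [Field 𝕜] (g : Type v) [LieRing g] [LieAlgebra 𝕜 g]
  {L : Type w} [LieRing L] [LieAlgebra 𝕜 L] (ρ : L →ₗ⁅𝕜⁆ LieDerivation 𝕜 g g)

theorem mkQ_eq_zero {k : ℕ} (u : ZZ 𝕜 g k) :
    ((BZ 𝕜 g k).submoduleOf (ZZ 𝕜 g k)).mkQ u = 0 ↔ (u : ExteriorAlgebra 𝕜 g) ∈ BZ 𝕜 g k := by
  rw [Submodule.mkQ_apply, Submodule.Quotient.mk_eq_zero]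
  rfl

/-- linear maps on the homology as linear maps on the chains -/
theorem ext_chain {N : Type w} [AddCommGroup N] [Module 𝕜 N] (k : ℕ) (r : HH 𝕜 g k →ₗ[𝕜] N) :
    ∃ r' : ExteriorAlgebra 𝕜 g →ₗ[𝕜] N, (∀ u ∈ BZ 𝕜 g k, r' u = 0) ∧
      ∀ u : ZZ 𝕜 g k, r' u = r (((BZ 𝕜 g k).submoduleOf (ZZ 𝕜 g k)).mkQ u) := by
  obtain ⟨r', hr'⟩ := LinearMap.exists_extend
    (r ∘ₗ ((BZ 𝕜 g k).submoduleOf (ZZ 𝕜 g k)).mkQ)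
  have h : ∀ u : ZZ 𝕜 g k, r' u = r (((BZ 𝕜 g k).submoduleOf (ZZ 𝕜 g k)).mkQ u) := fun u =>
    congrArg (fun F : ZZ 𝕜 g k →ₗ[𝕜] N => F u) hr'
  refine ⟨r', fun u hu => ?_, h⟩
  have h1 := h ⟨u, BZ_le_ZZ 𝕜 g k hu⟩
  rw [(mkQ_eq_zero 𝕜 g ⟨u, BZ_le_ZZ 𝕜 g k hu⟩).2 hu, map_zero] at h1
  exact h1

theorem hRep_mkQ (k : ℕ) (X : L) (z : ZZ 𝕜 g k) :
    hRep 𝕜 g ρ k X (((BZ 𝕜 g k).submoduleOf (ZZ 𝕜 g k)).mkQ z)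
      = ((BZ 𝕜 g k).submoduleOf (ZZ 𝕜 g k)).mkQ ⟨extD 𝕜 (ρ X : g →ₗ[𝕜] g) z,
        extD_ZZ 𝕜 g (ρ X) k z.2⟩ := rfl

theorem triv_of_HH (k : ℕ) (x : HH 𝕜 g k) (r : HH 𝕜 g k →ₗ[𝕜] 𝕜) (hx : r x = 1)
    (h : ∀ X, hRep 𝕜 g ρ k X x = 0) (h' : ∀ X y, r (hRep 𝕜 g ρ k X y) = 0) :
    ∃ (z : ExteriorAlgebra 𝕜 g) (r : ExteriorAlgebra 𝕜 g →ₗ[𝕜] 𝕜), z ∈ ZZ 𝕜 g k ∧
      (∀ X, extD 𝕜 (ρ X : g →ₗ[𝕜] g) z ∈ BZ 𝕜 g k) ∧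
      (∀ u ∈ BZ 𝕜 g k, r u = 0) ∧
      (∀ X, ∀ u ∈ ZZ 𝕜 g k, r (extD 𝕜 (ρ X : g →ₗ[𝕜] g) u) = 0) ∧ r z = 1 := by
  obtain ⟨z, rfl⟩ := Submodule.mkQ_surjective _ x
  obtain ⟨r', h1, h2⟩ := ext_chain 𝕜 g k r
  refine ⟨z, r', z.2, fun X => ?_, h1, fun X u hu => ?_, (h2 z).trans hx⟩
  · have := h X
    exact (mkQ_eq_zero 𝕜 g ⟨extD 𝕜 (ρ X : g →ₗ[𝕜] g) z, extD_ZZ 𝕜 g (ρ X) k z.2⟩).1 this
  · have h3 := h' X (((BZ 𝕜 g k).submoduleOf (ZZ 𝕜 g k)).mkQ ⟨u, hu⟩)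
    rw [hRep_mkQ, ← h2] at h3
    exact h3

theorem adj_of_HH (k : ℕ) (f : L →ₗ[𝕜] HH 𝕜 g k) (r : HH 𝕜 g k →ₗ[𝕜] L)
    (hr : ∀ X, r (f X) = X) (h : ∀ X Y, f ⁅X, Y⁆ = hRep 𝕜 g ρ k X (f Y))
    (h' : ∀ X y, r (hRep 𝕜 g ρ k X y) = ⁅X, r y⁆) :
    ∃ (f' : L →ₗ[𝕜] ExteriorAlgebra 𝕜 g) (r' : ExteriorAlgebra 𝕜 g →ₗ[𝕜] L),
      (∀ X, f' X ∈ ZZ 𝕜 g k) ∧
      (∀ X Y, f' ⁅X, Y⁆ - extD 𝕜 (ρ X : g →ₗ[𝕜] g) (f' Y) ∈ BZ 𝕜 g k) ∧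
      (∀ u ∈ BZ 𝕜 g k, r' u = 0) ∧
      (∀ X, ∀ u ∈ ZZ 𝕜 g k, r' (extD 𝕜 (ρ X : g →ₗ[𝕜] g) u) = ⁅X, r' u⁆) ∧
      ∀ X, r' (f' X) = X := by
  obtain ⟨s, hs⟩ := ((BZ 𝕜 g k).submoduleOf (ZZ 𝕜 g k)).mkQ.exists_rightInverse_of_surjective
    (LinearMap.range_eq_top.2 (Submodule.mkQ_surjective _))
  have hs' : ∀ x, ((BZ 𝕜 g k).submoduleOf (ZZ 𝕜 g k)).mkQ (s x) = x := fun x =>
    congrArg (fun F : HH 𝕜 g k →ₗ[𝕜] HH 𝕜 g k => F x) hs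
  obtain ⟨r', h1, h2⟩ := ext_chain 𝕜 g k r
  refine ⟨(ZZ 𝕜 g k).subtype ∘ₗ s ∘ₗ f, r', fun X => (s (f X)).2, fun X Y => ?_, h1,
    fun X u hu => ?_, fun X => ?_⟩
  · have h3 := h X Y
    rw [← hs' (f ⁅X, Y⁆), ← hs' (f Y), hRep_mkQ, ← sub_eq_zero, ← map_sub, mkQ_eq_zero] at h3
    exact h3
  · have h3 := h' X (((BZ 𝕜 g k).submoduleOf (ZZ 𝕜 g k)).mkQ ⟨u, hu⟩)
    rw [hRep_mkQ, ← h2, ← h2] at h3
    exact h3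
  · have h3 := h2 (s (f X))
    rw [hs', hr] at h3
    exact h3

end chain

section abg

variable (𝕜 : Type u) [Field 𝕜]

/-- `sl_3` as a subspace and as a Lie algebra -/
def toS : SL3 𝕜 ≃ₗ[𝕜] sl3 𝕜 where
  toFun X := ⟨X.1, X.2⟩
  invFun X := ⟨X.1, X.2⟩
  map_add' _ _ := rfl
  map_smul' _ _ := rfl
  left_inv _ := rfl
  right_inv _ := rfl

theorem toS_coe (X : SL3 𝕜) : (toS 𝕜 X).1 = X.1 := rfl

variable (A : Type u) [NonUnitalNonAssocRing A] [Module 𝕜 A]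
  [IsScalarTower 𝕜 A A] [SMulCommClass 𝕜 A A] [IsAlt A] [CharZero 𝕜]

/-- the inclusion of `sl_3 ⊗ A` -/
noncomputable def inlS : (sl3 𝕜 ⊗[𝕜] A) →ₗ[𝕜] ABG 𝕜 A where
  toFun x := (x, 0)
  map_add' x y := ABG_ext 𝕜 A rfl (by rw [ABG_snd_add]; exact (add_zero _).symm)
  map_smul' c x := ABG_ext 𝕜 A rfl (by
    rw [RingHom.id_apply, ABG_snd_smul]; exact (smul_zero _).symm)

/-- the inclusion of `B(A)` -/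
noncomputable def inrB : BB 𝕜 A →ₗ[𝕜] ABG 𝕜 A where
  toFun x := (0, x)
  map_add' x y := ABG_ext 𝕜 A (by rw [ABG_fst_add]; exact (add_zero _).symm) rfl
  map_smul' c x := ABG_ext 𝕜 A (by
    rw [RingHom.id_apply, ABG_fst_smul]; exact (smul_zero _).symm) rfl

noncomputable def sMap : SL3 𝕜 →ₗ[𝕜] A →ₗ[𝕜] ABG 𝕜 A :=
  ((TensorProduct.mk 𝕜 (sl3 𝕜) A).compr₂ (inlS 𝕜 A)) ∘ₗ (toS 𝕜).toLinearMap

noncomputable def wMap : A →ₗ[𝕜] A →ₗ[𝕜] ABG 𝕜 A := (wedge 𝕜).compr₂ (inrB 𝕜 A)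

noncomputable def aMap : SL3 𝕜 →ₗ[𝕜] ABG 𝕜 A →ₗ[𝕜] ABG 𝕜 A := slActL 𝕜 A ∘ₗ (toS 𝕜).toLinearMap

theorem sMap_fst (X : SL3 𝕜) (p : A) : (sMap 𝕜 A X p).1 = toS 𝕜 X ⊗ₜ p := rfl
theorem sMap_snd (X : SL3 𝕜) (p : A) : (sMap 𝕜 A X p).2 = 0 := rfl
theorem wMap_fst (p q : A) : (wMap 𝕜 A p q).1 = 0 := rfl
theorem wMap_snd (p q : A) : (wMap 𝕜 A p q).2 = wedge 𝕜 p q := rfl

theorem lift_sMap : TensorProduct.lift (sMap 𝕜 A)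
    = inlS 𝕜 A ∘ₗ ((toS 𝕜).rTensor A).toLinearMap :=
  TensorProduct.ext' fun _ _ => rfl

theorem lift_wMap : TensorProduct.lift (wMap 𝕜 A) = inrB 𝕜 A ∘ₗ (relB 𝕜 A).mkQ :=
  TensorProduct.ext' fun _ _ => rfl

theorem dpq_eq (p q r : A) : dpq p q r = DD 𝕜 p q r := (DD_apply 𝕜 p q r).symm

theorem isABG : IsABG 𝕜 A (ABG 𝕜 A) (sMap 𝕜 A) (wMap 𝕜 A) (aMap 𝕜 A) := by
  have inj1 : Function.Injective (inlS 𝕜 A) := fun x y h => congrArg Prod.fst h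
  have inj2 : Function.Injective (inrB 𝕜 A) := fun x y h => congrArg Prod.snd h
  refine ⟨?_, ?_, ?_, ?_, ?_, ?_, ?_, ?_⟩
  · rw [lift_sMap]
    exact inj1.comp ((toS 𝕜).rTensor A).injective
  · rw [lift_wMap, LinearMap.ker_comp_of_ker_eq_bot _ (LinearMap.ker_eq_bot.2 inj2),
      Submodule.ker_mkQ]
    rfl
  · rw [lift_wMap, lift_sMap, LinearMap.range_comp_of_range_eq_top _ (LinearEquiv.range _),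
      LinearMap.range_comp_of_range_eq_top _ (Submodule.range_mkQ _)]
    constructor
    · rw [Submodule.disjoint_def]
      rintro _ ⟨x, rfl⟩ ⟨y, hy⟩
      have h1 : x = 0 := (congrArg Prod.fst hy).symm
      rw [h1, map_zero]
    · rw [codisjoint_iff, eq_top_iff]
      rintro x -
      have : x = inlS 𝕜 A x.1 + inrB 𝕜 A x.2 :=
        ABG_ext 𝕜 A (by rw [ABG_fst_add]; exact (add_zero _).symm)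
          (by rw [ABG_snd_add]; exact (zero_add _).symm)
      rw [this]
      exact Submodule.add_mem_sup ⟨_, rfl⟩ ⟨_, rfl⟩
  · intro X Y C J p q hC hJ
    have hC' : toS 𝕜 C = ⁅toS 𝕜 X, toS 𝕜 Y⁆ := Subtype.ext hC
    have hJ' : toS 𝕜 J = slAnti 𝕜 (toS 𝕜 X) (toS 𝕜 Y) := Subtype.ext (by rw [slAnti_coe]; exact hJ)
    refine ABG_ext 𝕜 A ?_ ?_
    · rw [lie_fst, ABG_fst_add, ABG_fst_add, ABG_fst_smul]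
      simp only [sMap_fst, sMap_snd, wMap_fst, map_zero, LinearMap.zero_apply, brSS_tmul, hC', hJ',
        smul_zero, add_zero, sub_zero]
      rfl
    · rw [lie_snd, ABG_snd_add, ABG_snd_add, ABG_snd_smul]
      simp only [sMap_fst, sMap_snd, wMap_snd, map_zero, LinearMap.zero_apply, brSB_tmul,
        zero_add, add_zero]
      rfl
  · intro X p q r
    refine ABG_ext 𝕜 A ?_ ?_
    · rw [lie_fst]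
      simp only [sMap_fst, sMap_snd, wMap_fst, wMap_snd, map_zero, LinearMap.zero_apply, zero_add,
        sub_zero, actS_tmul, DB_wedge, dpq_eq 𝕜 A]
    · rw [lie_snd]
      simp only [sMap_fst, sMap_snd, wMap_fst, wMap_snd, map_zero, LinearMap.zero_apply, zero_add]
  · intro p q r t
    refine ABG_ext 𝕜 A ?_ ?_
    · rw [lie_fst, ABG_fst_add]
      simp only [wMap_fst, wMap_snd, map_zero, LinearMap.zero_apply, add_zero, sub_zero]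
    · rw [lie_snd, ABG_snd_add]
      simp only [wMap_fst, wMap_snd, map_zero, LinearMap.zero_apply, zero_add, BBbr_wedge,
        DB_wedge, dpq_eq 𝕜 A]
  · intro X Y C p hC
    have hC' : toS 𝕜 C = ⁅toS 𝕜 X, toS 𝕜 Y⁆ := Subtype.ext hC
    refine ABG_ext 𝕜 A ?_ rfl
    change (slBr 𝕜 (toS 𝕜 X)).rTensor A (toS 𝕜 Y ⊗ₜ p) = toS 𝕜 C ⊗ₜ p
    rw [LinearMap.rTensor_tmul, hC']
    rfl
  · intro X p q
    refine ABG_ext 𝕜 A ?_ rfl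
    change (slBr 𝕜 (toS 𝕜 X)).rTensor A 0 = 0
    rw [map_zero]

end abg

theorem isFreeAlt (𝕜 : Type u) [Field 𝕜] {ι : Type} :
    IsFreeAlt 𝕜 (Alt 𝕜 ι) (fun i => Pool.Agent.J4H71.ABG.gen 𝕜 i) := by
  refine ⟨fun p q => ⟨IsAlt.left_alt p q, IsAlt.right_alt p q⟩, ?_⟩
  intro B _ _ _ _ hB y
  haveI : IsAlt B := ⟨fun p q => (hB p q).1, fun p q => (hB p q).2⟩
  exact Pool.Agent.J4H71.ABG.alt_univ 𝕜 y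

end Pool.Agent.J4H88.ABG
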