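import Pool.Agent.J4H88.ABG.Basic

/-!
# The free (non-unital) alternative algebra (JOB FA)
-/

namespace Pool.Agent.J4H88.ABG

universe u v

section FA

variable (𝕜 : Type u) [Field 𝕜] (X : Type v)

/-- the ideal of the free nonassociative algebra generated by `(pp)q - p(pq)`, `(qp)p - q(pp)` -/
noncomputable def altIdeal : Submodule 𝕜 (FreeNonUnitalNonAssocAlgebra 𝕜 X) :=
  sInf {I | (∀ p q, (p * p) * q - p * (p * q) ∈ I) ∧ (∀ p q, (q * p) * p - q * (p * p) ∈ I) ∧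
    (∀ a, ∀ x ∈ I, a * x ∈ I) ∧ (∀ a, ∀ x ∈ I, x * a ∈ I)}

/-- the free alternative algebra on the set `X` (= on the vector space with basis `X`) -/
abbrev Alt : Type (max u v) := FreeNonUnitalNonAssocAlgebra 𝕜 X ⧸ altIdeal 𝕜 X

/-
JOB FA: (1) instances NonUnitalNonAssocRing (Alt 𝕜 X) (with the additive group structure of the
quotient, so that the Module instance of the quotient works), IsScalarTower 𝕜 (Alt 𝕜 X) (Alt 𝕜 X),
SMulCommClass 𝕜 (Alt 𝕜 X) (Alt 𝕜 X), IsAlt (Alt 𝕜 X);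
(2) universal property: for every alternative algebra A' and f : X → A' there is exactly one
homomorphism Alt 𝕜 X →ₙₐ[𝕜] A' with x ↦ f x;
(3) for CharZero 𝕜 and X = Fin m:
theorem alt_basis (m : ℕ) : ∃ (ι : Type u) (b : Module.Basis ι 𝕜 (Alt 𝕜 (Fin m))) (deg : ι → ℕ)
    (E : Alt 𝕜 (Fin m) →ₗ[𝕜] Alt 𝕜 (Fin m)),
    (∀ i, E (b i) = (deg i : 𝕜) • b i) ∧ (∀ x y, E (x * y) = E x * y + x * E y) ∧
    (∀ i, 1 ≤ deg i) ∧ (∀ n, {i | deg i = n}.Finite) ∧ {i | deg i = 1}.ncard = m ∧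
    (∀ n, 1 ≤ n → m ^ n ≤ {i | deg i = n}.ncard) ∧
    (∀ i, 2 ≤ deg i → b i ∈ Submodule.span 𝕜 {x | ∃ p q, x = p * q})
-/

end FA

end Pool.Agent.J4H88.ABG
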