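import Pool.Agent.J4H88.ABG.Ext
import Pool.Agent.J4H88.ABG.Coord

/-!
# Lie algebra homology and the action of derivations on it
-/

namespace Pool.Agent.J4H88.ABG

attribute [local instance 100] LieRing.ofAssociativeRing

universe u v w

open ExteriorAlgebra

section

variable (𝕜 : Type u) [Field 𝕜] {g : Type v} [AddCommGroup g] [Module 𝕜 g]

theorem ι_mem_one (x : g) : ι 𝕜 x ∈ ⋀[𝕜]^1 g := by
  rw [exteriorPower, pow_one]; exact LinearMap.mem_range_self _ _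

/-- induction on the exterior powers -/
theorem extPow_induction {P : ∀ k, ExteriorAlgebra 𝕜 g → Prop}
    (h0 : ∀ c : 𝕜, P 0 (algebraMap 𝕜 _ c)) (hadd : ∀ (k : ℕ) (u v), P k u → P k v → P k (u + v))
    (hmul : ∀ k (x : g) (u), u ∈ ⋀[𝕜]^k g → P k u → P (k + 1) (ι 𝕜 x * u))
    (k : ℕ) (u : ExteriorAlgebra 𝕜 g) (hu : u ∈ ⋀[𝕜]^k g) : P k u := by
  induction k generalizing u with
  | zero =>
    rw [exteriorPower, pow_zero, Submodule.mem_one] at hu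
    obtain ⟨c, rfl⟩ := hu
    exact h0 c
  | succ k ih =>
    rw [exteriorPower, pow_succ'] at hu
    refine Submodule.mul_induction_on hu ?_ (fun u v hu hv => hadd _ u v hu hv)
    rintro _ ⟨x, rfl⟩ v hv
    exact hmul k x v hv (ih v hv)

theorem ι_mul_mem {k : ℕ} {u : ExteriorAlgebra 𝕜 g} (x : g) (hu : u ∈ ⋀[𝕜]^k g) :
    ι 𝕜 x * u ∈ ⋀[𝕜]^(k + 1) g := by
  rw [exteriorPower, pow_succ']
  exact Submodule.mul_mem_mul (LinearMap.mem_range_self _ _) hu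

theorem extD_mem (D : g →ₗ[𝕜] g) {k : ℕ} {u : ExteriorAlgebra 𝕜 g} (hu : u ∈ ⋀[𝕜]^k g) :
    extD 𝕜 D u ∈ ⋀[𝕜]^k g := by
  refine extPow_induction 𝕜 (P := fun k u => extD 𝕜 D u ∈ ⋀[𝕜]^k g) ?_ ?_ ?_ k u hu
  · intro c; rw [extD_algebraMap]; exact Submodule.zero_mem _
  · intro k u v hu hv; rw [map_add]; exact Submodule.add_mem _ hu hv
  · intro k x u hu hP
    rw [extD_ι_mul]
    exact Submodule.add_mem _ (ι_mul_mem 𝕜 _ hu) (ι_mul_mem 𝕜 _ hP)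

/-- `extD D` on a product of eigenvectors of `D` -/
theorem extD_ιMulti (D : g →ₗ[𝕜] g) {n : ℕ} (v : Fin n → g) (f : Fin n → 𝕜)
    (h : ∀ i, D (v i) = f i • v i) :
    extD 𝕜 D (ιMulti 𝕜 n v) = (∑ i, f i) • ιMulti 𝕜 n v := by
  induction n with
  | zero => simp [ιMulti_apply, extD_one]
  | succ n ih =>
    rw [ιMulti_succ_apply, extD_ι_mul, h, map_smul, smul_mul_assoc,
      ih (Matrix.vecTail v) (Matrix.vecTail f) (fun i => h i.succ), mul_smul_comm, ← add_smul,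
      Fin.sum_univ_succ]
    rfl

variable {I : Type w} [LinearOrder I] (c : Module.Basis I 𝕜 g)

theorem extD_basis (D : g →ₗ[𝕜] g) (f : I → 𝕜) (h : ∀ i, D (c i) = f i • c i) (S : Finset I) :
    extD 𝕜 D (c.ExteriorAlgebra S) = (∑ i ∈ S, f i) • c.ExteriorAlgebra S := by
  rw [ExteriorAlgebra.basis_apply]
  set e := Set.powersetCard.ofFinEmbEquiv.symm (Set.powersetCard.prodEquiv.symm S).2 with he
  have h1 : extD 𝕜 D (ιMulti 𝕜 S.card (c ∘ e)) = (∑ i, f (e i)) • ιMulti 𝕜 S.card (c ∘ e) :=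
    extD_ιMulti 𝕜 D _ (fun i => f (e i)) (fun i => h _)
  have h2 : ∑ i, f (e i) = ∑ i ∈ S, f i := by
    have := Finset.sum_map (Finset.univ : Finset (Fin S.card)) e.toEmbedding f
    have h3 : Finset.map e.toEmbedding Finset.univ = S := Finset.map_orderEmbOfFin_univ S rfl
    exact this.symm.trans (congrArg (fun T : Finset I => ∑ x ∈ T, f x) h3)
  rw [h2] at h1
  exact h1

theorem basis_mem (S : Finset I) : c.ExteriorAlgebra S ∈ ⋀[𝕜]^S.card g := by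
  rw [ExteriorAlgebra.basis_apply]
  exact (ιMulti_range 𝕜 _) ⟨_, rfl⟩

theorem extPow_eq_sup (k : ℕ) : ⋀[𝕜]^k g = sup c.ExteriorAlgebra {S | S.card = k} := by
  rw [sup_eq_span]
  apply le_antisymm
  · rw [← exteriorPower.ιMulti_family_span_fixedDegree_of_span 𝕜 (n := k) c.span_eq]
    rw [Submodule.span_le]
    rintro _ ⟨s, rfl⟩
    refine Submodule.subset_span ⟨s.1, s.2, ?_⟩
    exact ExteriorAlgebra.basis_apply_powersetCard c s
  · rw [Submodule.span_le]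
    rintro _ ⟨S, rfl, rfl⟩
    exact basis_mem 𝕜 c S

end

section Lie

variable (𝕜 : Type u) [Field 𝕜] (g : Type v) [LieRing g] [LieAlgebra 𝕜 g]

theorem bd_mem {k : ℕ} {u : ExteriorAlgebra 𝕜 g} (hu : u ∈ ⋀[𝕜]^k g) :
    bd 𝕜 g u ∈ ⋀[𝕜]^(k - 1) g := by
  have H : (k = 0 → bd 𝕜 g u = 0) ∧ ∀ j, k = j + 1 → bd 𝕜 g u ∈ ⋀[𝕜]^j g := by
    refine extPow_induction 𝕜 (P := fun k u => (k = 0 → bd 𝕜 g u = 0) ∧
      ∀ j, k = j + 1 → bd 𝕜 g u ∈ ⋀[𝕜]^j g) ?_ ?_ ?_ k u hu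
    · intro c; rw [bd_algebraMap]; exact ⟨fun _ => rfl, fun _ _ => Submodule.zero_mem _⟩
    · intro k u v hu hv; rw [map_add]
      exact ⟨fun h => by rw [hu.1 h, hv.1 h, add_zero],
        fun j h => Submodule.add_mem _ (hu.2 j h) (hv.2 j h)⟩
    · intro k x u hu hP
      refine ⟨fun h => absurd h (Nat.succ_ne_zero k), fun j hj => ?_⟩
      obtain rfl : k = j := Nat.succ_injective hj
      rw [bd_ι_mul]
      refine Submodule.sub_mem _ (extD_mem 𝕜 _ hu) ?_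
      cases k with
      | zero => rw [hP.1 rfl, mul_zero]; exact Submodule.zero_mem _
      | succ k => exact ι_mul_mem 𝕜 _ (hP.2 k rfl)
  cases k with
  | zero => rw [H.1 rfl]; exact Submodule.zero_mem _
  | succ k => exact H.2 k rfl

/-- the `k`-cycles -/
noncomputable def ZZ (k : ℕ) : Submodule 𝕜 (ExteriorAlgebra 𝕜 g) :=
  (⋀[𝕜]^k g) ⊓ LinearMap.ker (bd 𝕜 g)

/-- the `k`-boundaries -/
noncomputable def BZ (k : ℕ) : Submodule 𝕜 (ExteriorAlgebra 𝕜 g) :=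
  (⋀[𝕜]^(k + 1) g).map (bd 𝕜 g)

/-- the homology `H_k(g, 𝕜)` of the Lie algebra `g` with trivial coefficients -/
abbrev HH (k : ℕ) : Type (max u v) := ZZ 𝕜 g k ⧸ (BZ 𝕜 g k).submoduleOf (ZZ 𝕜 g k)

theorem BZ_le_ZZ (k : ℕ) : BZ 𝕜 g k ≤ ZZ 𝕜 g k := by
  rintro _ ⟨u, hu, rfl⟩
  exact ⟨bd_mem 𝕜 g hu, bd_bd 𝕜 g u⟩

theorem extD_ZZ (D : LieDerivation 𝕜 g g) (k : ℕ) {u : ExteriorAlgebra 𝕜 g} (hu : u ∈ ZZ 𝕜 g k) :
    extD 𝕜 (D : g →ₗ[𝕜] g) u ∈ ZZ 𝕜 g k := by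
  refine ⟨extD_mem 𝕜 _ hu.1, ?_⟩
  change bd 𝕜 g _ = 0
  rw [bd_extD, show bd 𝕜 g u = 0 from hu.2, map_zero]

theorem extD_BZ (D : LieDerivation 𝕜 g g) (k : ℕ) {u : ExteriorAlgebra 𝕜 g} (hu : u ∈ BZ 𝕜 g k) :
    extD 𝕜 (D : g →ₗ[𝕜] g) u ∈ BZ 𝕜 g k := by
  obtain ⟨v, hv, rfl⟩ := hu
  exact ⟨extD 𝕜 (D : g →ₗ[𝕜] g) v, extD_mem 𝕜 _ hv, bd_extD 𝕜 g D v⟩

/-- the action of a derivation on the homology -/
noncomputable def hAct (D : LieDerivation 𝕜 g g) (k : ℕ) : Module.End 𝕜 (HH 𝕜 g k) :=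
  Submodule.mapQ _ _ ((extD 𝕜 (D : g →ₗ[𝕜] g)).restrict fun _ hu => extD_ZZ 𝕜 g D k hu) (by
    intro u hu
    exact extD_BZ 𝕜 g D k hu)

variable {L : Type w} [LieRing L] [LieAlgebra 𝕜 L] (ρ : L →ₗ⁅𝕜⁆ LieDerivation 𝕜 g g)

theorem extD_lie (X Y : L) (u : ExteriorAlgebra 𝕜 g) :
    extD 𝕜 (ρ ⁅X, Y⁆ : g →ₗ[𝕜] g) u
      = extD 𝕜 (ρ X : g →ₗ[𝕜] g) (extD 𝕜 (ρ Y : g →ₗ[𝕜] g) u)
        - extD 𝕜 (ρ Y : g →ₗ[𝕜] g) (extD 𝕜 (ρ X : g →ₗ[𝕜] g) u) := by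
  have e : (ρ ⁅X, Y⁆ : g →ₗ[𝕜] g)
      = (ρ X : g →ₗ[𝕜] g) ∘ₗ (ρ Y : g →ₗ[𝕜] g) - (ρ Y : g →ₗ[𝕜] g) ∘ₗ (ρ X : g →ₗ[𝕜] g) := by
    rw [LieHom.map_lie]
    refine LinearMap.ext fun x => ?_
    exact LieDerivation.lie_apply (ρ X) (ρ Y) x
  rw [e, extD_comm]

/-- The representation on the exterior algebra of a Lie algebra `L` acting on `g` by
derivations. -/
noncomputable def extRep : L →ₗ⁅𝕜⁆ Module.End 𝕜 (ExteriorAlgebra 𝕜 g) where
  toFun X := extD 𝕜 (ρ X : g →ₗ[𝕜] g)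
  map_add' X Y := by
    rw [map_add, ← extD_add]; rfl
  map_smul' c X := by
    rw [map_smul]
    exact extD_smul 𝕜 c (ρ X : g →ₗ[𝕜] g)
  map_lie' := by
    intro X Y
    refine LinearMap.ext fun u => ?_
    exact extD_lie 𝕜 g ρ X Y u

/-- the representation on the homology `H_k(g, 𝕜)` of a Lie algebra `L` acting on `g` by
derivations -/
noncomputable def hRep (k : ℕ) : L →ₗ⁅𝕜⁆ Module.End 𝕜 (HH 𝕜 g k) where
  toFun X := hAct 𝕜 g (ρ X) k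
  map_add' X Y := by
    refine Submodule.linearMap_qext _ (LinearMap.ext fun u => ?_)
    refine congrArg (Submodule.Quotient.mk (p := (BZ 𝕜 g k).submoduleOf (ZZ 𝕜 g k)))
      (Subtype.ext ?_)
    have := congrArg (fun f : Module.End 𝕜 (ExteriorAlgebra 𝕜 g) => f u) (map_add (extRep 𝕜 g ρ) X Y)
    exact this
  map_smul' c X := by
    refine Submodule.linearMap_qext _ (LinearMap.ext fun u => ?_)
    refine congrArg (Submodule.Quotient.mk (p := (BZ 𝕜 g k).submoduleOf (ZZ 𝕜 g k)))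
      (Subtype.ext ?_)
    have := congrArg (fun f : Module.End 𝕜 (ExteriorAlgebra 𝕜 g) => f u)
      (map_smul (extRep 𝕜 g ρ) c X)
    exact this
  map_lie' := by
    intro X Y
    refine Submodule.linearMap_qext _ (LinearMap.ext fun u => ?_)
    refine congrArg (Submodule.Quotient.mk (p := (BZ 𝕜 g k).submoduleOf (ZZ 𝕜 g k)))
      (Subtype.ext ?_)
    have := congrArg (fun f : Module.End 𝕜 (ExteriorAlgebra 𝕜 g) => f u)
      (LieHom.map_lie (extRep 𝕜 g ρ) X Y)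
    exact this

end Lie

end Pool.Agent.J4H88.ABG
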