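import Pool.Agent.J4H88.ABG.Wa
import Pool.Agent.J4H64.ABG.Wb

/-!
# The weight lemma for representations of `sl_3`
-/

namespace Pool.Agent.J4H88.ABG

attribute [local instance 100] LieRing.ofAssociativeRing

universe u v

variable {𝕜 : Type u} [Field 𝕜] [CharZero 𝕜] {M : Type v} [AddCommGroup M] [Module 𝕜 M]
  [FiniteDimensional 𝕜 M]

theorem lemW0 (φ : sl3 𝕜 →ₗ⁅𝕜⁆ Module.End 𝕜 M) (hM : ⨆ μ, wtS φ μ = ⊤)
    (h : ∀ m : M, (∀ X, φ X m = 0) → m = 0) :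
    ph (fun μ => (Module.finrank 𝕜 (wtS φ μ) : ℤ)) (0, 0) = 0 := by
  refine W75.job_WA φ (0, 0) fun m hm => ?_
  by_contra hne
  obtain ⟨v, p, q, hv, hp, hq, he1, he2, hc⟩ := J4H64.ABG.job_WB φ hM _ m hne hm
  have hc' : (2 * ((p : ℕ) ^ 2 + p * q + q ^ 2) + 6 * (p + q) : ℕ) = 0 := by
    have : ((2 * ((p : ℕ) ^ 2 + p * q + q ^ 2) + 6 * (p + q) : ℕ) : 𝕜) = 0 := by
      push_cast
      rw [← hc]; simp
    exact_mod_cast this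
  have hp0 : p = 0 := by omega
  have hq0 : q = 0 := by omega
  subst hp0; subst hq0
  simp only [Nat.cast_zero, zero_smul] at hp hq
  exact hv (h v (J4H64.ABG.job_WC0 φ v hp hq he1 he2))

theorem arith18 (p q : ℕ) (h : 2 * (p ^ 2 + p * q + q ^ 2) + 6 * (p + q) = 18) :
    p = 1 ∧ q = 1 := by
  have hp3 : p ≤ 3 := by nlinarith
  have hq3 : q ≤ 3 := by nlinarith
  interval_cases p <;> interval_cases q <;> simp_all

theorem lemW1 (φ : sl3 𝕜 →ₗ⁅𝕜⁆ Module.End 𝕜 M) (hM : ⨆ μ, wtS φ μ = ⊤)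
    (h : ¬ ∃ f : sl3 𝕜 →ₗ[𝕜] M, Function.Injective f ∧ ∀ X Y : sl3 𝕜, f ⁅X, Y⁆ = φ X (f Y)) :
    ph (fun μ => (Module.finrank 𝕜 (wtS φ μ) : ℤ)) (1, 1) = 0 := by
  refine W75.job_WA φ (1, 1) fun m hm => ?_
  by_contra hne
  obtain ⟨v, p, q, hv, hp, hq, he1, he2, hc⟩ := J4H64.ABG.job_WB φ hM _ m hne hm
  have hc' : (2 * ((p : ℕ) ^ 2 + p * q + q ^ 2) + 6 * (p + q) : ℕ) = 18 := by
    have : ((2 * ((p : ℕ) ^ 2 + p * q + q ^ 2) + 6 * (p + q) : ℕ) : 𝕜) = ((18 : ℕ) : 𝕜) := by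
      push_cast
      rw [← hc]; push_cast; norm_num
    exact_mod_cast this
  obtain ⟨rfl, rfl⟩ := arith18 p q hc'
  simp only [Nat.cast_one, one_smul] at hp hq
  exact h (J4H64.ABG.job_WC1 φ v hv hp hq he1 he2)

end Pool.Agent.J4H88.ABG
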