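import Pool.Agent.J4H88.ABG.LieDefs
import Pool.Agent.J4H88.ABG.LieB
import Pool.Agent.J4H88.ABG.LieB4

/-!
# The Allison-Benkart-Gao Lie algebra of an alternative algebra
-/

open scoped TensorProduct

namespace Pool.Agent.J4H88.ABG

attribute [local instance 100] LieRing.ofAssociativeRing

set_option linter.unusedSectionVars false
set_option linter.dupNamespace false

universe u v

section

variable (𝕜 : Type u) [Field 𝕜] (A : Type v) [NonUnitalNonAssocRing A] [Module 𝕜 A]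
  [IsScalarTower 𝕜 A A] [SMulCommClass 𝕜 A A] [IsAlt A] [CharZero 𝕜]

/-! ### The identities behind the Jacobi identity -/

/-- JOB LIE 1 -/
theorem brSS_self (u : sl3 𝕜 ⊗[𝕜] A) : brSS 𝕜 A u u = 0 :=
  B42.t_brSS_self 𝕜 A u

/-- JOB LIE 2 -/
theorem brSB_self (u : sl3 𝕜 ⊗[𝕜] A) : brSB 𝕜 A u u = 0 :=
  B42.t_brSB_self 𝕜 A u

omit [CharZero 𝕜] in
theorem BBbr_skew' (b c : BB 𝕜 A) : BBbr 𝕜 A b c + BBbr 𝕜 A c b = 0 := by
  induction b using BB_induction with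
  | h0 => simp
  | hadd x y hx hy =>
    simp only [map_add, LinearMap.add_apply]
    linear_combination (norm := abel) hx + hy
  | hw p q =>
    induction c using BB_induction with
    | h0 => simp
    | hadd x y hx hy =>
      simp only [map_add, LinearMap.add_apply]
      linear_combination (norm := abel) hx + hy
    | hw r s =>
      rw [BBbr_wedge, BBbr_wedge, DB_wedge, DB_wedge]
      exact wedge_id 𝕜 p q r s

omit [CharZero 𝕜] in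
/-- JOB LIE 3 -/
theorem BBbr_self (b : BB 𝕜 A) : BBbr 𝕜 A b b = 0 := by
  induction b using BB_induction with
  | h0 => simp
  | hadd x y hx hy =>
    have h := BBbr_skew' 𝕜 A x y
    simp only [map_add, LinearMap.add_apply, hx, hy]
    linear_combination (norm := abel) h
  | hw p q =>
    rw [BBbr_wedge, DB_wedge]
    exact wedge_id_self 𝕜 p q

/-- JOB LIE 4 -/
theorem jac_SSS_S (u v w : sl3 𝕜 ⊗[𝕜] A) :
    brSS 𝕜 A (brSS 𝕜 A u v) w + brSS 𝕜 A (brSS 𝕜 A v w) u + brSS 𝕜 A (brSS 𝕜 A w u) v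
      + (actS 𝕜 A (brSB 𝕜 A u v) w + actS 𝕜 A (brSB 𝕜 A v w) u + actS 𝕜 A (brSB 𝕜 A w u) v)
      = 0 :=
  B42.t_jac_SSS_S 𝕜 A u v w

/-- JOB LIE 5 -/
theorem jac_SSS_B (u v w : sl3 𝕜 ⊗[𝕜] A) :
    brSB 𝕜 A (brSS 𝕜 A u v) w + brSB 𝕜 A (brSS 𝕜 A v w) u + brSB 𝕜 A (brSS 𝕜 A w u) v = 0 :=
  B42.t_jac_SSS_B 𝕜 A u v w

/-- JOB LIE 6 -/
theorem actS_brSS (b : BB 𝕜 A) (u v : sl3 𝕜 ⊗[𝕜] A) :
    actS 𝕜 A b (brSS 𝕜 A u v) = brSS 𝕜 A (actS 𝕜 A b u) v + brSS 𝕜 A u (actS 𝕜 A b v) :=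
  B42.t_actS_brSS 𝕜 A b u v

/-- JOB LIE 7 -/
theorem BBbr_brSB (b : BB 𝕜 A) (u v : sl3 𝕜 ⊗[𝕜] A) :
    BBbr 𝕜 A b (brSB 𝕜 A u v) = brSB 𝕜 A (actS 𝕜 A b u) v + brSB 𝕜 A u (actS 𝕜 A b v) := by
  induction u using TensorProduct.induction_on with
  | zero => simp
  | add x y hx hy => simp only [map_add, LinearMap.add_apply, hx, hy]; abel
  | tmul X p =>
    induction v using TensorProduct.induction_on with
    | zero => simp
    | add x y hx hy => simp only [map_add, hx, hy]; abel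
    | tmul Y q =>
      simp only [actS_tmul, brSB_tmul, map_smul, BBbr_wedge, smul_add]

omit [CharZero 𝕜] in
/-- derivations and the operators `D_{p,q}` -/
theorem der_DD (D : A →ₗ[𝕜] A) (hD : ∀ x y, D (x * y) = D x * y + x * D y) (p q : A) :
    DD 𝕜 (D p) q + DD 𝕜 p (D q) = D ∘ₗ DD 𝕜 p q - DD 𝕜 p q ∘ₗ D := by
  ext r
  simp only [LinearMap.add_apply, LinearMap.sub_apply, LinearMap.comp_apply, DD_apply, map_add,
    map_sub, hD, mul_add, add_mul]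
  abel

omit [CharZero 𝕜] in
/-- JOB LIE 8 -/
theorem DB_BBbr (b c : BB 𝕜 A) :
    DB 𝕜 A (BBbr 𝕜 A b c) = DB 𝕜 A b ∘ₗ DB 𝕜 A c - DB 𝕜 A c ∘ₗ DB 𝕜 A b := by
  induction c using BB_induction with
  | h0 => simp
  | hadd x y hx hy =>
    simp only [map_add, hx, hy, LinearMap.comp_add, LinearMap.add_comp]
    abel
  | hw p q =>
    rw [BBbr_wedge, map_add, DB_wedge, DB_wedge, DB_wedge]
    exact der_DD 𝕜 A (DB 𝕜 A b) (DB_mul 𝕜 b) p q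

omit [CharZero 𝕜] in
/-- JOB LIE 9 -/
theorem BBbr_jac (a b c : BB 𝕜 A) :
    BBbr 𝕜 A (BBbr 𝕜 A a b) c = BBbr 𝕜 A a (BBbr 𝕜 A b c) - BBbr 𝕜 A b (BBbr 𝕜 A a c) := by
  induction c using BB_induction with
  | h0 => simp
  | hadd x y hx hy => simp only [map_add, hx, hy]; abel
  | hw r s =>
    simp only [BBbr_wedge, DB_BBbr, map_add, map_sub, LinearMap.sub_apply, LinearMap.comp_apply]
    abel

/-- the bracket of the Allison-Benkart-Gao Lie algebra -/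
noncomputable instance : Bracket (ABG 𝕜 A) (ABG 𝕜 A) where
  bracket x y := (brSS 𝕜 A x.1 y.1 + actS 𝕜 A x.2 y.1 - actS 𝕜 A y.2 x.1,
    brSB 𝕜 A x.1 y.1 + BBbr 𝕜 A x.2 y.2)

theorem lie_fst (x y : ABG 𝕜 A) :
    ⁅x, y⁆.1 = brSS 𝕜 A x.1 y.1 + actS 𝕜 A x.2 y.1 - actS 𝕜 A y.2 x.1 := rfl

theorem lie_snd (x y : ABG 𝕜 A) : ⁅x, y⁆.2 = brSB 𝕜 A x.1 y.1 + BBbr 𝕜 A x.2 y.2 := rfl

theorem ABG_ext {x y : ABG 𝕜 A} (h1 : x.1 = y.1) (h2 : x.2 = y.2) : x = y := Prod.ext h1 h2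

theorem ABG_fst_add (x y : ABG 𝕜 A) : (x + y).1 = x.1 + y.1 := rfl
theorem ABG_snd_add (x y : ABG 𝕜 A) : (x + y).2 = x.2 + y.2 := rfl
theorem ABG_fst_smul (c : 𝕜) (x : ABG 𝕜 A) : (c • x).1 = c • x.1 := rfl
theorem ABG_snd_smul (c : 𝕜) (x : ABG 𝕜 A) : (c • x).2 = c • x.2 := rfl
theorem ABG_fst_zero : (0 : ABG 𝕜 A).1 = 0 := rfl
theorem ABG_snd_zero : (0 : ABG 𝕜 A).2 = 0 := rfl

theorem brSS_skew (u v : sl3 𝕜 ⊗[𝕜] A) : brSS 𝕜 A u v = - brSS 𝕜 A v u := by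
  have h := brSS_self 𝕜 A (u + v)
  simp only [map_add, LinearMap.add_apply, brSS_self, zero_add, add_zero] at h
  exact eq_neg_of_add_eq_zero_right h

theorem brSB_skew (u v : sl3 𝕜 ⊗[𝕜] A) : brSB 𝕜 A u v = - brSB 𝕜 A v u := by
  have h := brSB_self 𝕜 A (u + v)
  simp only [map_add, LinearMap.add_apply, brSB_self, zero_add, add_zero] at h
  exact eq_neg_of_add_eq_zero_right h

omit [CharZero 𝕜] in
theorem BBbr_skew (u v : BB 𝕜 A) : BBbr 𝕜 A u v = - BBbr 𝕜 A v u := by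
  have h := BBbr_self 𝕜 A (u + v)
  simp only [map_add, LinearMap.add_apply, BBbr_self, zero_add, add_zero] at h
  exact eq_neg_of_add_eq_zero_right h

omit [CharZero 𝕜] in
theorem actS_BBbr (b c : BB 𝕜 A) (u : sl3 𝕜 ⊗[𝕜] A) :
    actS 𝕜 A (BBbr 𝕜 A b c) u = actS 𝕜 A b (actS 𝕜 A c u) - actS 𝕜 A c (actS 𝕜 A b u) := by
  induction u using TensorProduct.induction_on with
  | zero => simp
  | tmul X r => simp only [actS_tmul, DB_BBbr, LinearMap.sub_apply, LinearMap.comp_apply,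
      TensorProduct.tmul_sub]
  | add x y hx hy => simp only [map_add, hx, hy]; abel

theorem leib_fst (x y z : ABG 𝕜 A) : ⁅x, ⁅y, z⁆⁆.1 = (⁅⁅x, y⁆, z⁆ + ⁅y, ⁅x, z⁆⁆).1 := by
  simp only [lie_fst, lie_snd, ABG_fst_add, map_add, map_sub, LinearMap.add_apply,
    LinearMap.sub_apply]
  have j := jac_SSS_S 𝕜 A x.1 y.1 z.1
  have j1 := actS_brSS 𝕜 A y.2 x.1 z.1
  have j2 := actS_brSS 𝕜 A x.2 y.1 z.1
  have j3 := actS_brSS 𝕜 A z.2 x.1 y.1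
  have s1 := brSS_skew 𝕜 A x.1 (brSS 𝕜 A y.1 z.1)
  have s2 := brSS_skew 𝕜 A y.1 (brSS 𝕜 A x.1 z.1)
  have s3 : brSS 𝕜 A (brSS 𝕜 A x.1 z.1) y.1 = - brSS 𝕜 A (brSS 𝕜 A z.1 x.1) y.1 := by
    rw [brSS_skew 𝕜 A x.1 z.1, map_neg, LinearMap.neg_apply]
  have s4 : actS 𝕜 A (brSB 𝕜 A x.1 z.1) y.1 = - actS 𝕜 A (brSB 𝕜 A z.1 x.1) y.1 := by
    rw [brSB_skew 𝕜 A x.1 z.1, map_neg, LinearMap.neg_apply]
  have s5 := brSS_skew 𝕜 A y.1 (actS 𝕜 A z.2 x.1)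
  have b1 := actS_BBbr 𝕜 A y.2 z.2 x.1
  have b2 := actS_BBbr 𝕜 A x.2 y.2 z.1
  have b3 := actS_BBbr 𝕜 A x.2 z.2 y.1
  linear_combination (norm := abel) -j - j1 + j2 + j3 + s1 - s2 + s3 + s4 + s5 - b1 - b2 + b3

theorem leib_snd (x y z : ABG 𝕜 A) : ⁅x, ⁅y, z⁆⁆.2 = (⁅⁅x, y⁆, z⁆ + ⁅y, ⁅x, z⁆⁆).2 := by
  simp only [lie_fst, lie_snd, ABG_snd_add, map_add, map_sub, LinearMap.add_apply,
    LinearMap.sub_apply]
  have j := jac_SSS_B 𝕜 A x.1 y.1 z.1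
  have j1 := BBbr_brSB 𝕜 A y.2 x.1 z.1
  have j2 := BBbr_brSB 𝕜 A x.2 y.1 z.1
  have j3 := BBbr_brSB 𝕜 A z.2 x.1 y.1
  have s1 := brSB_skew 𝕜 A x.1 (brSS 𝕜 A y.1 z.1)
  have s2 := brSB_skew 𝕜 A y.1 (brSS 𝕜 A x.1 z.1)
  have s3 : brSB 𝕜 A (brSS 𝕜 A x.1 z.1) y.1 = - brSB 𝕜 A (brSS 𝕜 A z.1 x.1) y.1 := by
    rw [brSS_skew 𝕜 A x.1 z.1, map_neg, LinearMap.neg_apply]
  have s4 := BBbr_skew 𝕜 A (brSB 𝕜 A x.1 y.1) z.2
  have s5 := brSB_skew 𝕜 A y.1 (actS 𝕜 A z.2 x.1)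
  have b1 := BBbr_jac 𝕜 A x.2 y.2 z.2
  linear_combination (norm := abel) -j - j1 + j2 + j3 + s1 - s2 + s3 - s4 + s5 - b1

noncomputable instance : LieRing (ABG 𝕜 A) where
  add_lie x y z := by
    refine ABG_ext 𝕜 A ?_ ?_ <;>
    simp only [lie_fst, lie_snd, ABG_fst_add, ABG_snd_add, map_add, LinearMap.add_apply] <;> abel
  lie_add x y z := by
    refine ABG_ext 𝕜 A ?_ ?_ <;>
    simp only [lie_fst, lie_snd, ABG_fst_add, ABG_snd_add, map_add, LinearMap.add_apply] <;> abel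
  lie_self x := by
    refine ABG_ext 𝕜 A ?_ ?_
    · simp only [lie_fst, lie_snd, brSS_self, zero_add, sub_self, ABG_fst_zero]
    · simp only [lie_fst, lie_snd, brSB_self, BBbr_self, zero_add, ABG_snd_zero]
  leibniz_lie x y z := ABG_ext 𝕜 A (leib_fst 𝕜 A x y z) (leib_snd 𝕜 A x y z)

noncomputable instance : LieAlgebra 𝕜 (ABG 𝕜 A) where
  lie_smul c x y := by
    refine ABG_ext 𝕜 A ?_ ?_ <;>
    simp only [lie_fst, lie_snd, ABG_fst_smul, ABG_snd_smul, map_smul, LinearMap.smul_apply, smul_add,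
      smul_sub]

end

end Pool.Agent.J4H88.ABG
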