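import Pool.Agent.J4H88.ABG.AltId

/-!
# The vector space and the components of the bracket of the Allison-Benkart-Gao algebra
-/

open scoped TensorProduct

namespace Pool.Agent.J4H88.ABG

attribute [local instance 100] LieRing.ofAssociativeRing

set_option linter.unusedSectionVars false
set_option linter.dupNamespace false

universe u v

section

variable (𝕜 : Type u) [Field 𝕜] (A : Type v) [NonUnitalNonAssocRing A] [Module 𝕜 A]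
  [IsScalarTower 𝕜 A A] [SMulCommClass 𝕜 A A] [IsAlt A]

/-- the derivation `D_b` of `A` for `b ∈ B(A)`: `D_{p∧q} = D_{p,q}` -/
noncomputable def DB : BB 𝕜 A →ₗ[𝕜] (A →ₗ[𝕜] A) :=
  (relB 𝕜 A).liftQ (TensorProduct.lift (DD 𝕜)) (by
    rw [relB, Submodule.span_le]
    rintro x (⟨p, rfl⟩ | ⟨p, q, r, rfl⟩)
    · simp [DD_self]
    · simp [DD_cyc])

variable {A}

theorem DB_wedge (p q : A) : DB 𝕜 A (wedge 𝕜 p q) = DD 𝕜 p q := by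
  simp [DB, wedge]

/-- induction on `B(A)` -/
theorem BB_induction {P : BB 𝕜 A → Prop} (b : BB 𝕜 A) (h0 : P 0)
    (hw : ∀ p q, P (wedge 𝕜 p q)) (hadd : ∀ x y, P x → P y → P (x + y)) : P b := by
  obtain ⟨t, rfl⟩ := (relB 𝕜 A).mkQ_surjective b
  induction t using TensorProduct.induction_on with
  | zero => simpa using h0
  | tmul p q => exact hw p q
  | add x y hx hy => rw [map_add]; exact hadd _ _ hx hy

theorem BB_hom_ext {N : Type*} [AddCommGroup N] [Module 𝕜 N] (f g : BB 𝕜 A →ₗ[𝕜] N)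
    (h : ∀ p q, f (wedge 𝕜 p q) = g (wedge 𝕜 p q)) : f = g := by
  refine LinearMap.ext fun t => ?_
  induction t using BB_induction with
  | h0 => simp
  | hw p q => exact h p q
  | hadd x y hx hy => rw [map_add, map_add, hx, hy]

theorem DB_mul (b : BB 𝕜 A) (r s : A) :
    DB 𝕜 A b (r * s) = DB 𝕜 A b r * s + r * DB 𝕜 A b s := by
  induction b using BB_induction with
  | h0 => simp
  | hw p q => rw [DB_wedge, DD_deriv]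
  | hadd x y hx hy => simp only [map_add, LinearMap.add_apply, hx, hy, add_mul, mul_add]; abel

/-- a derivation of `A` acts on `B(A)` by `p ∧ q ↦ D p ∧ q + p ∧ D q` -/
noncomputable def BBmap (D : A →ₗ[𝕜] A) (hD : ∀ x y, D (x * y) = D x * y + x * D y) :
    BB 𝕜 A →ₗ[𝕜] BB 𝕜 A :=
  (relB 𝕜 A).mapQ (relB 𝕜 A) (D.rTensor A + D.lTensor A) (by
    rw [relB, Submodule.span_le]
    rintro x (⟨p, rfl⟩ | ⟨p, q, r, rfl⟩)
    · have h1 : (D p + p) ⊗ₜ[𝕜] (D p + p) ∈ relB 𝕜 A := Submodule.subset_span (Or.inl ⟨_, rfl⟩)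
      have h2 : (D p) ⊗ₜ[𝕜] (D p) ∈ relB 𝕜 A := Submodule.subset_span (Or.inl ⟨_, rfl⟩)
      have h3 : p ⊗ₜ[𝕜] p ∈ relB 𝕜 A := Submodule.subset_span (Or.inl ⟨_, rfl⟩)
      have h4 := Submodule.sub_mem _ (Submodule.sub_mem _ h1 h2) h3
      change (D.rTensor A + D.lTensor A) (p ⊗ₜ[𝕜] p) ∈ relB 𝕜 A
      simp only [LinearMap.add_apply, LinearMap.rTensor_tmul, LinearMap.lTensor_tmul]
      convert h4 using 1
      simp only [TensorProduct.add_tmul, TensorProduct.tmul_add]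
      abel
    · have h1 : ∀ a b c : A, (a * b) ⊗ₜ[𝕜] c + (b * c) ⊗ₜ a + (c * a) ⊗ₜ b ∈ relB 𝕜 A :=
        fun a b c => Submodule.subset_span (Or.inr ⟨a, b, c, rfl⟩)
      have h4 := Submodule.add_mem _ (Submodule.add_mem _ (h1 (D p) q r) (h1 p (D q) r))
        (h1 p q (D r))
      change (D.rTensor A + D.lTensor A) ((p * q) ⊗ₜ[𝕜] r + (q * r) ⊗ₜ p + (r * p) ⊗ₜ q)
        ∈ relB 𝕜 A
      simp only [LinearMap.add_apply, map_add,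
        LinearMap.rTensor_tmul, LinearMap.lTensor_tmul, hD]
      convert h4 using 1
      simp only [TensorProduct.add_tmul, TensorProduct.tmul_add]
      abel)

theorem BBmap_wedge (D : A →ₗ[𝕜] A) (hD : ∀ x y, D (x * y) = D x * y + x * D y) (p q : A) :
    BBmap 𝕜 D hD (wedge 𝕜 p q) = wedge 𝕜 (D p) q + wedge 𝕜 p (D q) := by
  simp [BBmap, wedge]

variable (A)

/-- the bracket of `B(A)`: `[p ∧ q, r ∧ s] = D_{p,q}(r) ∧ s + r ∧ D_{p,q}(s)` -/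
noncomputable def BBbr : BB 𝕜 A →ₗ[𝕜] BB 𝕜 A →ₗ[𝕜] BB 𝕜 A where
  toFun b := BBmap 𝕜 (DB 𝕜 A b) (DB_mul 𝕜 b)
  map_add' b c := BB_hom_ext 𝕜 _ _ fun p q => by
    simp only [BBmap_wedge, map_add, LinearMap.add_apply]; abel
  map_smul' c b := BB_hom_ext 𝕜 _ _ fun p q => by
    simp only [BBmap_wedge, map_smul, LinearMap.smul_apply, smul_add, RingHom.id_apply]

theorem BBbr_wedge (b : BB 𝕜 A) (r s : A) :
    BBbr 𝕜 A b (wedge 𝕜 r s) = wedge 𝕜 (DB 𝕜 A b r) s + wedge 𝕜 r (DB 𝕜 A b s) :=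
  BBmap_wedge 𝕜 (DB 𝕜 A b) (DB_mul 𝕜 b) r s

/-- the action of `B(A)` on `sl_3 ⊗ A`: `[b, X ⊗ r] = X ⊗ D_b(r)` -/
noncomputable def actS : BB 𝕜 A →ₗ[𝕜] (sl3 𝕜 ⊗[𝕜] A) →ₗ[𝕜] (sl3 𝕜 ⊗[𝕜] A) :=
  (LinearMap.lTensorHom (sl3 𝕜)) ∘ₗ DB 𝕜 A

theorem actS_tmul (b : BB 𝕜 A) (X : sl3 𝕜) (r : A) :
    actS 𝕜 A b (X ⊗ₜ r) = X ⊗ₜ DB 𝕜 A b r := rfl

variable [CharZero 𝕜]

/-- the `sl_3 ⊗ A` component of the bracket of `sl_3 ⊗ A`: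
`[X ⊗ p, Y ⊗ q] = [X,Y] ⊗ p·q + {X,Y} ⊗ [p,q] + ...` -/
noncomputable def brSS : (sl3 𝕜 ⊗[𝕜] A) →ₗ[𝕜] (sl3 𝕜 ⊗[𝕜] A) →ₗ[𝕜] (sl3 𝕜 ⊗[𝕜] A) :=
  TensorProduct.map₂ (slBr 𝕜) (jor 𝕜) + TensorProduct.map₂ (slAnti 𝕜) (comm 𝕜)

/-- the `B(A)` component of the bracket of `sl_3 ⊗ A`: `[X ⊗ p, Y ⊗ q] = ... + ⅓ tr(XY) p ∧ q` -/
noncomputable def brSB : (sl3 𝕜 ⊗[𝕜] A) →ₗ[𝕜] (sl3 𝕜 ⊗[𝕜] A) →ₗ[𝕜] BB 𝕜 A :=
  (TensorProduct.map₂ (slForm 𝕜) (wedge 𝕜)).compr₂ (TensorProduct.lid 𝕜 (BB 𝕜 A)).toLinearMap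

theorem brSS_tmul (X Y : sl3 𝕜) (p q : A) :
    brSS 𝕜 A (X ⊗ₜ p) (Y ⊗ₜ q) = ⁅X, Y⁆ ⊗ₜ jor 𝕜 p q + slAnti 𝕜 X Y ⊗ₜ comm 𝕜 p q := by
  simp only [brSS, LinearMap.add_apply, TensorProduct.map₂_apply_tmul]
  rfl

theorem brSB_tmul (X Y : sl3 𝕜) (p q : A) :
    brSB 𝕜 A (X ⊗ₜ p) (Y ⊗ₜ q) = ((3⁻¹ : 𝕜) * (X.1 * Y.1).trace) • wedge 𝕜 p q := by
  simp only [brSB, LinearMap.compr₂_apply, TensorProduct.map₂_apply_tmul,
    LinearEquiv.coe_coe, TensorProduct.lid_tmul]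
  rfl

/-- the underlying vector space `sl_3 ⊗ A ⊕ B(A)` of the Allison-Benkart-Gao Lie algebra -/
def ABG : Type (max u v) := (sl3 𝕜 ⊗[𝕜] A) × BB 𝕜 A

noncomputable instance : AddCommGroup (ABG 𝕜 A) :=
  inferInstanceAs (AddCommGroup ((sl3 𝕜 ⊗[𝕜] A) × BB 𝕜 A))

noncomputable instance : Module 𝕜 (ABG 𝕜 A) :=
  inferInstanceAs (Module 𝕜 ((sl3 𝕜 ⊗[𝕜] A) × BB 𝕜 A))

end

end Pool.Agent.J4H88.ABG
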