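import Pool.Agent.J4H88.ABG.Sl3

/-!
# Subquotients of representations of `sl_3` and their weight spaces
-/

namespace Pool.Agent.J4H88.ABG

attribute [local instance 100] LieRing.ofAssociativeRing

universe u v w

section

variable {𝕜 : Type u} [Field 𝕜] {V : Type v} [AddCommGroup V] [Module 𝕜 V]
  {L : Type w} [LieRing L] [LieAlgebra 𝕜 L] (Φ : L →ₗ⁅𝕜⁆ Module.End 𝕜 V)
  (Z N : Submodule 𝕜 V) (hZ : ∀ X, ∀ z ∈ Z, Φ X z ∈ Z) (hN : ∀ X, ∀ z ∈ N, Φ X z ∈ N)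

/-- the representation on a subquotient -/
noncomputable def subquo : L →ₗ⁅𝕜⁆ Module.End 𝕜 (Z ⧸ N.submoduleOf Z) where
  toFun X := Submodule.mapQ _ _ ((Φ X).restrict (hZ X)) (by
    intro u hu
    exact hN X _ hu)
  map_add' X Y := by
    refine Submodule.linearMap_qext _ (LinearMap.ext fun u => ?_)
    refine congrArg (Submodule.Quotient.mk (p := N.submoduleOf Z)) (Subtype.ext ?_)
    exact congrArg (fun f : Module.End 𝕜 V => f u) (map_add Φ X Y)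
  map_smul' c X := by
    refine Submodule.linearMap_qext _ (LinearMap.ext fun u => ?_)
    refine congrArg (Submodule.Quotient.mk (p := N.submoduleOf Z)) (Subtype.ext ?_)
    exact congrArg (fun f : Module.End 𝕜 V => f u) (map_smul Φ c X)
  map_lie' := by
    intro X Y
    refine Submodule.linearMap_qext _ (LinearMap.ext fun u => ?_)
    refine congrArg (Submodule.Quotient.mk (p := N.submoduleOf Z)) (Subtype.ext ?_)
    exact congrArg (fun f : Module.End 𝕜 V => f u) (LieHom.map_lie Φ X Y)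

theorem subquo_mk (X : L) (z : Z) :
    subquo Φ Z N hZ hN X (Submodule.Quotient.mk z)
      = Submodule.Quotient.mk ⟨Φ X z, hZ X z z.2⟩ := rfl

end

section

variable {𝕜 : Type u} [Field 𝕜] [CharZero 𝕜] {V : Type v} [AddCommGroup V] [Module 𝕜 V]
  (Φ : sl3 𝕜 →ₗ⁅𝕜⁆ Module.End 𝕜 V)
  (Z N : Submodule 𝕜 V) (hZ : ∀ X, ∀ z ∈ Z, Φ X z ∈ Z) (hN : ∀ X, ∀ z ∈ N, Φ X z ∈ N)

/-- the properties of the projections onto the weight spaces that are used -/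
structure WtProj (π : ℤ × ℤ → V →ₗ[𝕜] V) : Prop where
  memZ : ∀ μ, ∀ z ∈ Z, π μ z ∈ Z
  memN : ∀ μ, ∀ z ∈ N, π μ z ∈ N
  mem : ∀ μ z, π μ z ∈ wtS Φ μ
  comm1 : ∀ μ z, π μ (Φ (h1 𝕜) z) = Φ (h1 𝕜) (π μ z)
  comm2 : ∀ μ z, π μ (Φ (h2 𝕜) z) = Φ (h2 𝕜) (π μ z)
  sum : ∀ z, ∃ F : Finset (ℤ × ℤ), z = ∑ μ ∈ F, π μ z

variable {Φ Z N}

/-- every class of weight `μ` is represented by an element of weight `μ` -/
theorem WtProj.surj {π : ℤ × ℤ → V →ₗ[𝕜] V} (H : WtProj Φ Z N π) (hNZ : N ≤ Z) (μ : ℤ × ℤ)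
    (m : Z ⧸ N.submoduleOf Z) (hm : m ∈ wtS (subquo Φ Z N hZ hN) μ) :
    ∃ z : Z, (z : V) ∈ wtS Φ μ ∧ Submodule.Quotient.mk z = m := by
  classical
  obtain ⟨z, rfl⟩ := Submodule.Quotient.mk_surjective _ m
  obtain ⟨F, hF⟩ := H.sum z
  have key : ∀ ν, ν ≠ μ → π ν z ∈ N := by
    intro ν hν
    obtain ⟨e1, e2⟩ := hm
    rw [subquo_mk, ← Submodule.Quotient.mk_smul, Submodule.Quotient.eq] at e1 e2
    have e1' : Φ (h1 𝕜) z - (μ.1 : 𝕜) • (z : V) ∈ N := e1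
    have e2' : Φ (h2 𝕜) z - (μ.2 : 𝕜) • (z : V) ∈ N := e2
    have p1 := H.memN ν _ e1'
    have p2 := H.memN ν _ e2'
    rw [map_sub, H.comm1, map_smul, (mem_wtS.1 (H.mem ν z)).1, ← sub_smul] at p1
    rw [map_sub, H.comm2, map_smul, (mem_wtS.1 (H.mem ν z)).2, ← sub_smul] at p2
    by_cases h : ν.1 = μ.1
    · have h' : ν.2 ≠ μ.2 := fun h' => hν (Prod.ext h h')
      have hc : ((ν.2 : 𝕜) - (μ.2 : 𝕜)) ≠ 0 := sub_ne_zero.2 (fun h'' => h' (Int.cast_injective h''))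
      have := N.smul_mem ((ν.2 : 𝕜) - (μ.2 : 𝕜))⁻¹ p2
      rwa [smul_smul, inv_mul_cancel₀ hc, one_smul] at this
    · have hc : ((ν.1 : 𝕜) - (μ.1 : 𝕜)) ≠ 0 := sub_ne_zero.2 (fun h'' => h (Int.cast_injective h''))
      have := N.smul_mem ((ν.1 : 𝕜) - (μ.1 : 𝕜))⁻¹ p1
      rwa [smul_smul, inv_mul_cancel₀ hc, one_smul] at this
  refine ⟨⟨π μ z, H.memZ μ z z.2⟩, H.mem μ z, ?_⟩
  rw [Submodule.Quotient.eq]
  change π μ z - (z : V) ∈ N
  by_cases hμ : μ ∈ F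
  · have : (z : V) = π μ z + ∑ ν ∈ F.erase μ, π ν z := by
      rw [Finset.add_sum_erase F (fun ν => π ν (z : V)) hμ]; exact hF
    have h2 : π μ z - (z : V) = - ∑ ν ∈ F.erase μ, π ν z := by
      nth_rewrite 2 [this]; abel
    rw [h2]
    exact N.neg_mem (N.sum_mem fun ν hν => key ν (Finset.ne_of_mem_erase hν))
  · have h1 : (z : V) ∈ N := by
      rw [hF]
      exact N.sum_mem fun ν hν => key ν (fun h => hμ (h ▸ hν))
    exact N.sub_mem (H.memN μ z h1) h1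

theorem WtProj.finrank_wtS {π : ℤ × ℤ → V →ₗ[𝕜] V} (H : WtProj Φ Z N π) (hNZ : N ≤ Z)
    [FiniteDimensional 𝕜 Z] (μ : ℤ × ℤ) :
    (Module.finrank 𝕜 (wtS (subquo Φ Z N hZ hN) μ) : ℤ)
      = (Module.finrank 𝕜 ((Z ⊓ wtS Φ μ : Submodule 𝕜 V)) : ℤ)
        - (Module.finrank 𝕜 ((N ⊓ wtS Φ μ : Submodule 𝕜 V)) : ℤ) := by
  have : FiniteDimensional 𝕜 (Z ⊓ wtS Φ μ : Submodule 𝕜 V) :=
    Submodule.finiteDimensional_inf_left _ _
  -- the map from the elements of weight μ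
  let q : Z →ₗ[𝕜] Z ⧸ N.submoduleOf Z := (N.submoduleOf Z).mkQ
  let i : (Z ⊓ wtS Φ μ : Submodule 𝕜 V) →ₗ[𝕜] Z := Submodule.inclusion inf_le_left
  let ψ : (Z ⊓ wtS Φ μ : Submodule 𝕜 V) →ₗ[𝕜] wtS (subquo Φ Z N hZ hN) μ :=
    (q ∘ₗ i).codRestrict _ (by
      rintro ⟨z, hz, hz'⟩
      refine ⟨?_, ?_⟩
      · refine congrArg (Submodule.Quotient.mk (p := N.submoduleOf Z)) (Subtype.ext ?_)
        exact hz'.1
      · refine congrArg (Submodule.Quotient.mk (p := N.submoduleOf Z)) (Subtype.ext ?_)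
        exact hz'.2)
  have hs : Function.Surjective ψ := by
    rintro ⟨m, hm⟩
    obtain ⟨z, hz, rfl⟩ := H.surj hZ hN hNZ μ m hm
    exact ⟨⟨z, z.2, hz⟩, rfl⟩
  have hr := LinearMap.finrank_range_add_finrank_ker ψ
  rw [LinearMap.range_eq_top.2 hs, finrank_top] at hr
  have hk : Module.finrank 𝕜 (LinearMap.ker ψ)
      = Module.finrank 𝕜 ((N ⊓ wtS Φ μ : Submodule 𝕜 V)) := by
    let e : LinearMap.ker ψ ≃ₗ[𝕜] (N ⊓ wtS Φ μ : Submodule 𝕜 V) :=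
      LinearEquiv.ofBijective
        ((((Z ⊓ wtS Φ μ : Submodule 𝕜 V).subtype ∘ₗ (LinearMap.ker ψ).subtype)).codRestrict
          (N ⊓ wtS Φ μ : Submodule 𝕜 V) (by
            rintro ⟨⟨z, hz, hz'⟩, hk⟩
            refine ⟨?_, hz'⟩
            have h0 : q ⟨z, hz⟩ = 0 := congrArg Subtype.val (LinearMap.mem_ker.1 hk)
            have h1 := (Submodule.Quotient.mk_eq_zero (N.submoduleOf Z)).1 h0
            exact h1)) (by
        constructor
        · rintro ⟨⟨z, hz, hz'⟩, hk⟩ ⟨⟨y, hy, hy'⟩, hk'⟩ h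
          have : z = y := congrArg Subtype.val h
          subst this; rfl
        · rintro ⟨z, hz, hz'⟩
          refine ⟨⟨⟨z, hNZ hz, hz'⟩, ?_⟩, rfl⟩
          rw [LinearMap.mem_ker]
          refine Subtype.ext ?_
          exact (Submodule.Quotient.mk_eq_zero _).2 hz)
    exact e.finrank_eq
  rw [hk] at hr
  omega

/-- the subquotient is the sum of its weight spaces -/
theorem WtProj.iSup_wtS {π : ℤ × ℤ → V →ₗ[𝕜] V} (H : WtProj Φ Z N π) :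
    ⨆ μ, wtS (subquo Φ Z N hZ hN) μ = ⊤ := by
  rw [eq_top_iff]
  rintro m -
  obtain ⟨z, rfl⟩ := Submodule.Quotient.mk_surjective _ m
  obtain ⟨F, hF⟩ := H.sum z
  have : (Submodule.Quotient.mk z : Z ⧸ N.submoduleOf Z)
      = ∑ μ ∈ F, Submodule.Quotient.mk ⟨π μ z, H.memZ μ z z.2⟩ := by
    rw [← Submodule.mkQ_apply]
    simp only [← Submodule.mkQ_apply]
    rw [← map_sum]
    congr 1
    refine Subtype.ext ?_
    rw [Submodule.coe_sum]
    exact hF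
  rw [this]
  refine Submodule.sum_mem _ fun μ _ => ?_
  refine Submodule.mem_iSup_of_mem μ ⟨?_, ?_⟩
  · refine congrArg (Submodule.Quotient.mk (p := N.submoduleOf Z)) (Subtype.ext ?_)
    exact (mem_wtS.1 (H.mem μ z)).1
  · refine congrArg (Submodule.Quotient.mk (p := N.submoduleOf Z)) (Subtype.ext ?_)
    exact (mem_wtS.1 (H.mem μ z)).2

end

end Pool.Agent.J4H88.ABG
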