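import Pool.Agent.J4H88.ABG.Act
import Pool.Agent.J4H88.ABG.Hom
import Pool.Agent.J4H88.ABG.SubQuo
import Pool.Agent.J4H88.ABG.LemW

/-!
# Euler characteristic of the Chevalley-Eilenberg complex of a graded Lie algebra with `sl_3`-action
-/

namespace Pool.Agent.J4H88.ABG

attribute [local instance 100] LieRing.ofAssociativeRing

universe u v w

open ExteriorAlgebra

namespace GrBasis

variable {𝕜 : Type u} [Field 𝕜] {g : Type u} [LieRing g] [LieAlgebra 𝕜 g]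
  {ρ : sl3 𝕜 →ₗ⁅𝕜⁆ LieDerivation 𝕜 g g} {a β : ℕ → ℕ} (G : GrBasis 𝕜 g ρ a β)

instance : LinearOrder G.I := G.ord

/-- the basis of the exterior algebra -/
noncomputable def BE : Module.Basis (Finset G.I) 𝕜 (ExteriorAlgebra 𝕜 g) := G.c.ExteriorAlgebra

/-- degree of a finite set of basis elements -/
def sdg (S : Finset G.I) : ℕ := ∑ i ∈ S, G.dg i

/-- weight of a finite set of basis elements -/
def swt (S : Finset G.I) : ℤ × ℤ := ∑ i ∈ S, G.wt i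

theorem E_BE (S : Finset G.I) :
    extD 𝕜 (G.E : g →ₗ[𝕜] g) (G.BE S) = (G.sdg S : 𝕜) • G.BE S := by
  rw [BE, extD_basis 𝕜 G.c _ (fun i => (G.dg i : 𝕜)) (fun i => G.hE i), sdg]
  push_cast
  rfl

theorem h1_BE (S : Finset G.I) :
    extRep 𝕜 g ρ (h1 𝕜) (G.BE S) = ((G.swt S).1 : 𝕜) • G.BE S := by
  change extD 𝕜 (ρ (h1 𝕜) : g →ₗ[𝕜] g) (G.BE S) = _
  rw [BE, extD_basis 𝕜 G.c _ (fun i => ((G.wt i).1 : 𝕜)) (fun i => G.hw1 i), swt, Prod.fst_sum]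
  push_cast
  rfl

theorem h2_BE (S : Finset G.I) :
    extRep 𝕜 g ρ (h2 𝕜) (G.BE S) = ((G.swt S).2 : 𝕜) • G.BE S := by
  change extD 𝕜 (ρ (h2 𝕜) : g →ₗ[𝕜] g) (G.BE S) = _
  rw [BE, extD_basis 𝕜 G.c _ (fun i => ((G.wt i).2 : 𝕜)) (fun i => G.hw2 i), swt, Prod.snd_sum]
  push_cast
  rfl

/-- chains of degree `k` in the exterior grading and degree `n` in the grading of `g` -/
noncomputable def CC (k n : ℕ) : Submodule 𝕜 (ExteriorAlgebra 𝕜 g) :=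
  sup G.BE {S | S.card = k ∧ G.sdg S = n}

theorem sdg_ge (S : Finset G.I) : S.card ≤ G.sdg S := by
  have : ∑ i ∈ S, 1 ≤ ∑ i ∈ S, G.dg i := Finset.sum_le_sum fun i _ => G.hdg i
  simpa [sdg] using this

theorem finite_le (n : ℕ) : {i | G.dg i ≤ n}.Finite := by
  have : {i | G.dg i ≤ n} = ⋃ m ∈ Finset.range (n + 1), {i | G.dg i = m} := by
    ext i; simp [Nat.lt_succ_iff]
  rw [this]
  exact Set.Finite.biUnion (Finset.finite_toSet _) fun m _ => G.hfin m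

theorem finite_sdg (n : ℕ) : {S : Finset G.I | G.sdg S = n}.Finite := by
  classical
  have hf := (G.finite_le n)
  refine Set.Finite.subset (hf.toFinset.powerset.finite_toSet) ?_
  rintro S rfl
  simp only [Finset.coe_powerset, Set.mem_preimage, Set.mem_powerset_iff, Finset.coe_subset]
  intro i hi
  rw [Set.Finite.mem_toFinset]
  exact Finset.single_le_sum (f := G.dg) (fun _ _ => Nat.zero_le _) hi

variable [CharZero 𝕜]

theorem mem_E (n : ℕ) (u : ExteriorAlgebra 𝕜 g) :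
    extD 𝕜 (G.E : g →ₗ[𝕜] g) u = (n : 𝕜) • u ↔ u ∈ sup G.BE {S | G.sdg S = n} := by
  rw [diag_eigen G.BE _ (fun S => (G.sdg S : 𝕜)) G.E_BE]
  simp only [Nat.cast_inj]

theorem mem_CC (k n : ℕ) (u : ExteriorAlgebra 𝕜 g) :
    u ∈ G.CC k n ↔ u ∈ ⋀[𝕜]^k g ∧ extD 𝕜 (G.E : g →ₗ[𝕜] g) u = (n : 𝕜) • u := by
  rw [mem_E, extPow_eq_sup 𝕜 G.c, CC]
  change u ∈ sup G.BE ({S | S.card = k} ∩ {S | G.sdg S = n}) ↔ _
  rw [sup_inter]
  rfl

theorem mem_wt (μ : ℤ × ℤ) (u : ExteriorAlgebra 𝕜 g) :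
    u ∈ wtS (extRep 𝕜 g ρ) μ ↔ u ∈ sup G.BE {S | G.swt S = μ} := by
  rw [mem_wtS, diag_eigen G.BE _ (fun S => ((G.swt S).1 : 𝕜)) G.h1_BE,
    diag_eigen G.BE _ (fun S => ((G.swt S).2 : 𝕜)) G.h2_BE]
  have : {S | G.swt S = μ} = {S | ((G.swt S).1 : 𝕜) = (μ.1 : 𝕜)} ∩
      {S | ((G.swt S).2 : 𝕜) = (μ.2 : 𝕜)} := by
    ext S
    simp only [Set.mem_setOf_eq, Set.mem_inter_iff, Int.cast_inj]
    exact Prod.ext_iff
  rw [this, sup_inter]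
  rfl

theorem bd_CC {k n : ℕ} {u : ExteriorAlgebra 𝕜 g} (hu : u ∈ G.CC (k + 1) n) :
    bd 𝕜 g u ∈ G.CC k n := by
  rw [mem_CC] at hu ⊢
  refine ⟨bd_mem 𝕜 g hu.1, ?_⟩
  rw [← bd_extD, hu.2, map_smul]

theorem bd_CC0 {n : ℕ} {u : ExteriorAlgebra 𝕜 g} (hu : u ∈ G.CC 0 n) : bd 𝕜 g u = 0 := by
  rw [mem_CC] at hu
  have h := hu.1
  rw [exteriorPower, pow_zero, Submodule.mem_one] at h
  obtain ⟨c, rfl⟩ := h
  exact bd_algebraMap 𝕜 g c

theorem bd_CC1 {n : ℕ} {u : ExteriorAlgebra 𝕜 g} (hu : u ∈ G.CC 1 n) : bd 𝕜 g u = 0 := by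
  rw [mem_CC] at hu
  have h := hu.1
  rw [exteriorPower, pow_one] at h
  obtain ⟨x, rfl⟩ := h
  exact bd_ι 𝕜 g x

theorem rep_CC (X : sl3 𝕜) {k n : ℕ} {u : ExteriorAlgebra 𝕜 g} (hu : u ∈ G.CC k n) :
    extRep 𝕜 g ρ X u ∈ G.CC k n := by
  rw [mem_CC] at hu ⊢
  refine ⟨extD_mem 𝕜 _ hu.1, ?_⟩
  change extD 𝕜 (G.E : g →ₗ[𝕜] g) (extD 𝕜 (ρ X : g →ₗ[𝕜] g) u)
    = (n : 𝕜) • extD 𝕜 (ρ X : g →ₗ[𝕜] g) u
  have h := extD_comm 𝕜 (G.E : g →ₗ[𝕜] g) (ρ X : g →ₗ[𝕜] g) u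
  have h0 : (G.E : g →ₗ[𝕜] g) ∘ₗ (ρ X : g →ₗ[𝕜] g) - (ρ X : g →ₗ[𝕜] g) ∘ₗ (G.E : g →ₗ[𝕜] g)
      = (0 : 𝕜) • LinearMap.id := by
    rw [zero_smul]
    refine LinearMap.ext fun x => ?_
    exact sub_eq_zero.2 (G.hcomm X x)
  rw [h0, extD_smul, zero_smul, LinearMap.zero_apply] at h
  rw [← map_smul, ← hu.2]
  exact (sub_eq_zero.1 h.symm)

/-! projections -/

theorem pr_n_bd (n : ℕ) (u : ExteriorAlgebra 𝕜 g) :
    bd 𝕜 g (pr G.BE {S | G.sdg S = n} u) = pr G.BE {S | G.sdg S = n} (bd 𝕜 g u) := by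
  have key : ∀ S, bd 𝕜 g (G.BE S) ∈ sup G.BE {T | G.sdg T = G.sdg S} := by
    intro S
    rw [← mem_E, ← bd_extD, E_BE, map_smul]
  refine pr_comm G.BE _ _ (fun S hS => ?_) (fun S hS => ?_) u
  · have := key S
    rwa [show G.sdg S = n from hS] at this
  · refine sup_mono G.BE ?_ (key S)
    intro T hT hT'
    exact hS (hT.symm.trans hT')

theorem rep_bd (X : sl3 𝕜) (u : ExteriorAlgebra 𝕜 g) :
    bd 𝕜 g (extRep 𝕜 g ρ X u) = extRep 𝕜 g ρ X (bd 𝕜 g u) := bd_extD 𝕜 g (ρ X) u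

theorem pr_w_bd (μ : ℤ × ℤ) (u : ExteriorAlgebra 𝕜 g) :
    bd 𝕜 g (pr G.BE {S | G.swt S = μ} u) = pr G.BE {S | G.swt S = μ} (bd 𝕜 g u) := by
  have key : ∀ S, bd 𝕜 g (G.BE S) ∈ sup G.BE {T | G.swt T = G.swt S} := by
    intro S
    rw [← mem_wt, mem_wtS, ← rep_bd, ← rep_bd, h1_BE, h2_BE, map_smul, map_smul]
    exact ⟨rfl, rfl⟩
  refine pr_comm G.BE _ _ (fun S hS => ?_) (fun S hS => ?_) u
  · have := key S
    rwa [show G.swt S = μ from hS] at this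
  · refine sup_mono G.BE ?_ (key S)
    intro T hT hT'
    exact hS (hT.symm.trans hT')

/-- projection to the weight space -/
noncomputable def pw (μ : ℤ × ℤ) : ExteriorAlgebra 𝕜 g →ₗ[𝕜] ExteriorAlgebra 𝕜 g :=
  pr G.BE {S | G.swt S = μ}

/-- cycles of degree n -/
noncomputable def Zc (k n : ℕ) : Submodule 𝕜 (ExteriorAlgebra 𝕜 g) :=
  G.CC k n ⊓ LinearMap.ker (bd 𝕜 g)

/-- boundaries of degree n -/
noncomputable def Nc (k n : ℕ) : Submodule 𝕜 (ExteriorAlgebra 𝕜 g) :=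
  (G.CC (k + 1) n).map (bd 𝕜 g)

theorem Nc_le (k n : ℕ) : G.Nc k n ≤ G.Zc k n := by
  rintro _ ⟨u, hu, rfl⟩
  exact ⟨G.bd_CC hu, bd_bd 𝕜 g u⟩

theorem rep_Zc (k n : ℕ) (X : sl3 𝕜) (z) (hz : z ∈ G.Zc k n) : extRep 𝕜 g ρ X z ∈ G.Zc k n := by
  refine ⟨G.rep_CC X hz.1, ?_⟩
  change bd 𝕜 g _ = 0
  rw [rep_bd, show bd 𝕜 g z = 0 from hz.2, map_zero]

theorem rep_Nc (k n : ℕ) (X : sl3 𝕜) (z) (hz : z ∈ G.Nc k n) : extRep 𝕜 g ρ X z ∈ G.Nc k n := by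
  obtain ⟨u, hu, rfl⟩ := hz
  exact ⟨_, G.rep_CC X hu, rep_bd X u⟩

theorem wtProj (k n : ℕ) : WtProj (extRep 𝕜 g ρ) (G.Zc k n) (G.Nc k n) G.pw where
  memZ μ z hz := by
    refine ⟨pr_mem' G.BE _ _ hz.1, ?_⟩
    change bd 𝕜 g _ = 0
    rw [pw, pr_w_bd, show bd 𝕜 g z = 0 from hz.2, map_zero]
  memN μ z hz := by
    obtain ⟨u, hu, rfl⟩ := hz
    exact ⟨_, pr_mem' G.BE {S | G.swt S = μ} _ hu, G.pr_w_bd μ u⟩
  mem μ z := by
    rw [G.mem_wt]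
    exact pr_mem G.BE _ z
  comm1 μ z := by
    refine (pr_comm G.BE _ (extRep 𝕜 g ρ (h1 𝕜)) (fun S hS => ?_) (fun S hS => ?_) z).symm
    · rw [h1_BE]; exact Submodule.smul_mem _ _ (basis_mem_sup G.BE hS)
    · rw [h1_BE]; exact Submodule.smul_mem _ _ (basis_mem_sup G.BE hS)
  comm2 μ z := by
    refine (pr_comm G.BE _ (extRep 𝕜 g ρ (h2 𝕜)) (fun S hS => ?_) (fun S hS => ?_) z).symm
    · rw [h2_BE]; exact Submodule.smul_mem _ _ (basis_mem_sup G.BE hS)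
    · rw [h2_BE]; exact Submodule.smul_mem _ _ (basis_mem_sup G.BE hS)
  sum z := by
    classical
    refine ⟨(G.BE.repr z).support.image G.swt, ?_⟩
    refine G.BE.ext_elem fun S => ?_
    rw [map_sum, Finsupp.finset_sum_apply]
    simp only [pw, pr_repr, Set.mem_setOf_eq]
    rw [Finset.sum_ite_eq]
    split_ifs with h
    · rfl
    · by_contra hne
      exact h (Finset.mem_image_of_mem _ (Finsupp.mem_support_iff.2 hne))

/-- chains of exterior degree `k`, degree `n`, weight `μ` -/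
noncomputable def CW (k n : ℕ) (μ : ℤ × ℤ) : Submodule 𝕜 (ExteriorAlgebra 𝕜 g) :=
  sup G.BE {S | S.card = k ∧ G.sdg S = n ∧ G.swt S = μ}

theorem CC_inf_wt (k n : ℕ) (μ : ℤ × ℤ) :
    (G.CC k n ⊓ wtS (extRep 𝕜 g ρ) μ : Submodule 𝕜 (ExteriorAlgebra 𝕜 g)) = G.CW k n μ := by
  ext u
  rw [Submodule.mem_inf, G.mem_wt, CC, ← Submodule.mem_inf, ← sup_inter, CW]
  have : ({S | S.card = k ∧ G.sdg S = n} ∩ {S | G.swt S = μ} : Set (Finset G.I))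
      = {S | S.card = k ∧ G.sdg S = n ∧ G.swt S = μ} := by
    ext S
    exact and_assoc
  rw [this]

theorem finite_CC (k n : ℕ) : FiniteDimensional 𝕜 (G.CC k n) :=
  finite_sup G.BE ((G.finite_sdg n).subset fun _ hS => hS.2)

theorem finite_CW (k n : ℕ) (μ : ℤ × ℤ) : FiniteDimensional 𝕜 (G.CW k n μ) :=
  finite_sup G.BE ((G.finite_sdg n).subset fun _ hS => hS.2.1)

/-- dimension of the cycles -/
noncomputable def zz (k n : ℕ) (μ : ℤ × ℤ) : ℤ :=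
  Module.finrank 𝕜 (G.CW k n μ ⊓ LinearMap.ker (bd 𝕜 g) : Submodule 𝕜 (ExteriorAlgebra 𝕜 g))

/-- dimension of the image of the differential -/
noncomputable def rr (k n : ℕ) (μ : ℤ × ℤ) : ℤ :=
  Module.finrank 𝕜 ((G.CW k n μ).map (bd 𝕜 g))

theorem Zc_inf (k n : ℕ) (μ : ℤ × ℤ) :
    (G.Zc k n ⊓ wtS (extRep 𝕜 g ρ) μ : Submodule 𝕜 (ExteriorAlgebra 𝕜 g))
      = G.CW k n μ ⊓ LinearMap.ker (bd 𝕜 g) := by
  rw [Zc, inf_right_comm, CC_inf_wt]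

theorem Nc_inf (k n : ℕ) (μ : ℤ × ℤ) :
    (G.Nc k n ⊓ wtS (extRep 𝕜 g ρ) μ : Submodule 𝕜 (ExteriorAlgebra 𝕜 g))
      = (G.CW (k + 1) n μ).map (bd 𝕜 g) := by
  apply le_antisymm
  · rintro v ⟨⟨u, hu, rfl⟩, hv⟩
    rw [SetLike.mem_coe, G.mem_wt] at hv
    refine ⟨G.pw μ u, ?_, ?_⟩
    · rw [← CC_inf_wt]
      refine ⟨pr_mem' G.BE _ _ hu, ?_⟩
      exact (G.mem_wt μ _).2 (pr_mem G.BE _ u)
    · rw [pw, pr_w_bd, pr_of_mem G.BE hv]
  · rintro _ ⟨u, hu, rfl⟩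
    rw [← CC_inf_wt] at hu
    refine ⟨⟨u, hu.1, rfl⟩, ?_⟩
    have h := hu.2
    rw [SetLike.mem_coe, mem_wtS] at h ⊢
    rw [← rep_bd, ← rep_bd, h.1, h.2, map_smul, map_smul]
    exact ⟨rfl, rfl⟩

/-- the representation of `sl_3` on the degree `n` part of the homology -/
noncomputable def mRep (k n : ℕ) :
    sl3 𝕜 →ₗ⁅𝕜⁆ Module.End 𝕜 (G.Zc k n ⧸ (G.Nc k n).submoduleOf (G.Zc k n)) :=
  subquo (extRep 𝕜 g ρ) (G.Zc k n) (G.Nc k n) (G.rep_Zc k n) (G.rep_Nc k n)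

theorem finite_Zc (k n : ℕ) : FiniteDimensional 𝕜 (G.Zc k n) := by
  have := G.finite_CC k n
  exact Submodule.finiteDimensional_inf_left _ _

theorem finrank_mRep (k n : ℕ) (μ : ℤ × ℤ) :
    (Module.finrank 𝕜 (wtS (G.mRep k n) μ) : ℤ) = G.zz k n μ - G.rr (k + 1) n μ := by
  have := G.finite_Zc k n
  rw [mRep, (G.wtProj k n).finrank_wtS _ _ (G.Nc_le k n) μ, Zc_inf, Nc_inf]
  rfl

theorem finrank_CW (k n : ℕ) (μ : ℤ × ℤ) :
    (Module.finrank 𝕜 (G.CW k n μ) : ℤ) = G.zz k n μ + G.rr k n μ := by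
  have := G.finite_CW k n μ
  have h := LinearMap.finrank_range_add_finrank_ker ((bd 𝕜 g).domRestrict (G.CW k n μ))
  rw [LinearMap.range_domRestrict] at h
  have h2 : Module.finrank 𝕜 (LinearMap.ker ((bd 𝕜 g).domRestrict (G.CW k n μ)))
      = Module.finrank 𝕜 (G.CW k n μ ⊓ LinearMap.ker (bd 𝕜 g) :
        Submodule 𝕜 (ExteriorAlgebra 𝕜 g)) := by
    rw [← Submodule.map_comap_subtype, Submodule.finrank_map_subtype_eq]
    rfl
  rw [h2] at h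
  rw [zz, rr, ← h]
  push_cast
  ring

theorem finrank_CW_eq (k n : ℕ) (μ : ℤ × ℤ) :
    Module.finrank 𝕜 (G.CW k n μ) = {S | S.card = k ∧ G.sdg S = n ∧ G.swt S = μ}.ncard :=
  finrank_sup G.BE _

theorem CW_top (n : ℕ) (μ : ℤ × ℤ) : G.CW (n + 1) n μ = ⊥ := by
  have : {S | S.card = n + 1 ∧ G.sdg S = n ∧ G.swt S = μ} = (∅ : Set (Finset G.I)) := by
    rw [Set.eq_empty_iff_forall_notMem]
    rintro S ⟨h1, h2, -⟩
    have := G.sdg_ge S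
    omega
  rw [CW, this, sup_eq_span, Set.image_empty, Submodule.span_empty]

theorem rr_top (n : ℕ) (μ : ℤ × ℤ) : G.rr (n + 1) n μ = 0 := by
  rw [rr, CW_top, Submodule.map_bot, finrank_bot]; rfl

theorem CW_le_CC (k n : ℕ) (μ : ℤ × ℤ) : G.CW k n μ ≤ G.CC k n :=
  sup_mono G.BE fun _ h => ⟨h.1, h.2.1⟩

theorem rr_zero (n : ℕ) (μ : ℤ × ℤ) : G.rr 0 n μ = 0 := by
  have : (G.CW 0 n μ).map (bd 𝕜 g) = ⊥ := by
    rw [eq_bot_iff]
    rintro _ ⟨u, hu, rfl⟩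
    rw [G.bd_CC0 (G.CW_le_CC _ _ _ hu)]
    exact Submodule.zero_mem _
  rw [rr, this, finrank_bot]; rfl

theorem rr_one (n : ℕ) (μ : ℤ × ℤ) : G.rr 1 n μ = 0 := by
  have : (G.CW 1 n μ).map (bd 𝕜 g) = ⊥ := by
    rw [eq_bot_iff]
    rintro _ ⟨u, hu, rfl⟩
    rw [G.bd_CC1 (G.CW_le_CC _ _ _ hu)]
    exact Submodule.zero_mem _
  rw [rr, this, finrank_bot]; rfl

/-- telescoping -/
theorem telescope (z r : ℕ → ℤ) (h0 : r 0 = 0) (N : ℕ) :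
    ∑ k ∈ Finset.range N, (-1 : ℤ) ^ k * (z k - r (k + 1))
      = ∑ k ∈ Finset.range N, (-1 : ℤ) ^ k * (z k + r k) + (-1) ^ N * r N := by
  induction N with
  | zero => simp [h0]
  | succ N ih =>
    rw [Finset.sum_range_succ, Finset.sum_range_succ, ih]
    ring

theorem euler (n : ℕ) (μ : ℤ × ℤ) :
    ∑ k ∈ Finset.range (n + 1), (-1 : ℤ) ^ k * (G.zz k n μ - G.rr (k + 1) n μ)
      = ∑ k ∈ Finset.range (n + 1), (-1 : ℤ) ^ k * (Module.finrank 𝕜 (G.CW k n μ) : ℤ) := by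
  rw [telescope (fun k => G.zz k n μ) (fun k => G.rr k n μ) (G.rr_zero n μ), G.rr_top, mul_zero,
    add_zero]
  refine Finset.sum_congr rfl fun k _ => ?_
  rw [finrank_CW]

theorem chi_eq (n : ℕ) (μ : ℤ × ℤ) :
    chi G.dg G.wt n μ
      = ∑ k ∈ Finset.range (n + 1), (-1 : ℤ) ^ k * (Module.finrank 𝕜 (G.CW k n μ) : ℤ) := by
  classical
  have hfin : {S : Finset G.I | G.sdg S = n ∧ G.swt S = μ}.Finite :=
    (G.finite_sdg n).subset fun _ h => h.1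
  have h1 : chi G.dg G.wt n μ = ∑ S ∈ hfin.toFinset, (-1 : ℤ) ^ S.card := by
    rw [chi]
    exact finsum_mem_eq_finite_toFinset_sum (fun S : Finset G.I => (-1 : ℤ) ^ S.card) hfin
  rw [h1]
  have h2 : ∀ S ∈ hfin.toFinset, S.card ∈ Finset.range (n + 1) := by
    intro S hS
    rw [Set.Finite.mem_toFinset] at hS
    have := G.sdg_ge S
    rw [Finset.mem_range]
    have h3 : G.sdg S = n := hS.1
    omega
  rw [← Finset.sum_fiberwise_of_maps_to h2]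
  refine Finset.sum_congr rfl fun k _ => ?_
  rw [finrank_CW_eq]
  have h3 : {S | S.card = k ∧ G.sdg S = n ∧ G.swt S = μ}
      = ((hfin.toFinset.filter fun S => S.card = k : Finset (Finset G.I)) : Set (Finset G.I)) := by
    ext S
    simp only [Finset.coe_filter, Set.Finite.mem_toFinset]
    constructor
    · rintro ⟨h, h'⟩; exact ⟨h', h⟩
    · rintro ⟨h, h'⟩; exact ⟨h', h⟩
  rw [h3, Set.ncard_coe_finset]
  rw [Finset.sum_congr rfl (g := fun _ => (-1 : ℤ) ^ k) (fun S hS => by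
    rw [(Finset.mem_filter.1 hS).2])]
  rw [Finset.sum_const, nsmul_eq_mul, mul_comm]

theorem CW_eq (k n : ℕ) (μ : ℤ × ℤ) : G.CW k n μ
    = (⋀[𝕜]^k g) ⊓ (sup G.BE {S | G.sdg S = n} ⊓ sup G.BE {S | G.swt S = μ}) := by
  rw [extPow_eq_sup 𝕜 G.c, CW]
  change _ = sup G.BE {S | S.card = k} ⊓ _
  rw [← sup_inter, ← sup_inter]
  rfl

theorem BE_singleton (i : G.I) : G.BE {i} = ι 𝕜 (G.c i) := by
  have hc : ({i} : Finset G.I).card = 1 := Finset.card_singleton i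
  rw [BE, ExteriorAlgebra.basis_apply_ofCard G.c hc]
  change ιMulti 𝕜 1 (G.c ∘ Set.powersetCard.ofFinEmbEquiv.symm (Set.powersetCard.ofCard hc)) = _
  rw [ιMulti_apply, List.ofFn_succ, List.ofFn_zero, List.prod_singleton]
  congr 1
  have h : Set.powersetCard.ofFinEmbEquiv.symm (Set.powersetCard.ofCard hc) 0 ∈ ({i} : Finset G.I) :=
    Finset.orderEmbOfFin_mem _ _ _
  rw [Function.comp_apply, Finset.mem_singleton.1 h]

/-- `[g,g]` contains all of degree at least two -/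
theorem h1_vanish (n : ℕ) (hn : 2 ≤ n) (μ : ℤ × ℤ) : G.zz 1 n μ - G.rr 2 n μ = 0 := by
  have hle : G.CW 1 n μ ≤ (G.CW 2 n μ).map (bd 𝕜 g) := by
    rw [CW, sup_eq_span, Submodule.span_le]
    rintro _ ⟨S, ⟨h1, h2, h3⟩, rfl⟩
    obtain ⟨i, rfl⟩ := Finset.card_eq_one.1 h1
    have hi : 2 ≤ G.dg i := by
      have : G.dg i = n := by simpa [sdg] using h2
      omega
    -- the basis element lies in the image of the second exterior power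
    have hmem : ι 𝕜 (G.c i) ∈ (⋀[𝕜]^2 g).map (bd 𝕜 g) := by
      have hb := G.hbr i hi
      have : ∀ x ∈ Submodule.span 𝕜 {x | ∃ y z : g, x = ⁅y, z⁆},
          ι 𝕜 x ∈ (⋀[𝕜]^2 g).map (bd 𝕜 g) := by
        intro x hx
        induction hx using Submodule.span_induction with
        | mem x h =>
          obtain ⟨y, z, rfl⟩ := h
          exact ⟨ι 𝕜 y * ι 𝕜 z, ι_mul_mem 𝕜 _ (ι_mem_one 𝕜 z), bd_ι_mul_ι 𝕜 g y z⟩
        | zero => rw [map_zero]; exact Submodule.zero_mem _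
        | add x y _ _ hx hy => rw [map_add]; exact Submodule.add_mem _ hx hy
        | smul c x _ hx => rw [map_smul]; exact Submodule.smul_mem _ _ hx
      exact this _ hb
    obtain ⟨u, hu, hu'⟩ := hmem
    rw [← BE_singleton] at hu'
    refine ⟨pr G.BE {S | G.sdg S = n} (pr G.BE {S | G.swt S = μ} u), ?_, ?_⟩
    · rw [SetLike.mem_coe, CW_eq]
      refine ⟨?_, pr_mem G.BE _ _, pr_mem' G.BE _ _ (pr_mem G.BE _ _)⟩
      rw [extPow_eq_sup 𝕜 G.c] at hu ⊢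
      exact pr_mem' G.BE _ _ (pr_mem' G.BE _ _ hu)
    · rw [pr_n_bd, pr_w_bd, hu', pr_of_mem G.BE (basis_mem_sup G.BE h3),
        pr_of_mem G.BE (basis_mem_sup G.BE h2)]
  have heq : (G.CW 1 n μ ⊓ LinearMap.ker (bd 𝕜 g) : Submodule 𝕜 (ExteriorAlgebra 𝕜 g))
      = (G.CW 2 n μ).map (bd 𝕜 g) := by
    apply le_antisymm
    · exact inf_le_left.trans hle
    · rw [← Nc_inf, ← Zc_inf]
      exact inf_le_inf_right _ (G.Nc_le 1 n)
  rw [zz, rr, heq, sub_self]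

theorem h0_vanish (n : ℕ) (hn : 1 ≤ n) (μ : ℤ × ℤ) : G.zz 0 n μ - G.rr 1 n μ = 0 := by
  have : G.CW 0 n μ = ⊥ := by
    have : {S | S.card = 0 ∧ G.sdg S = n ∧ G.swt S = μ} = (∅ : Set (Finset G.I)) := by
      rw [Set.eq_empty_iff_forall_notMem]
      rintro S ⟨h1, h2, -⟩
      rw [Finset.card_eq_zero] at h1
      subst h1
      rw [sdg, Finset.sum_empty] at h2
      omega
    rw [CW, this, sup_eq_span, Set.image_empty, Submodule.span_empty]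
  rw [rr_one, zz, this, bot_inf_eq, finrank_bot]; rfl

theorem ph_sum (N : ℕ) (f : ℕ → ℤ × ℤ → ℤ) (l : ℤ × ℤ) :
    ph (fun μ => ∑ k ∈ Finset.range N, (-1 : ℤ) ^ k * f k μ) l
      = ∑ k ∈ Finset.range N, (-1 : ℤ) ^ k * ph (f k) l := by
  simp only [ph, ← Finset.sum_sub_distrib, ← Finset.sum_add_distrib]
  refine Finset.sum_congr rfl fun k _ => ?_
  ring

/-- the Euler characteristic identity -/
theorem ph_chi (n : ℕ) (hn : 2 ≤ n) (l : ℤ × ℤ)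
    (h : ∀ k, 2 ≤ k → ph (fun μ => (Module.finrank 𝕜 (wtS (G.mRep k n) μ) : ℤ)) l = 0) :
    ph (chi G.dg G.wt n) l = 0 := by
  have h1 : chi G.dg G.wt n = fun μ => ∑ k ∈ Finset.range (n + 1),
      (-1 : ℤ) ^ k * (G.zz k n μ - G.rr (k + 1) n μ) := by
    funext μ
    rw [chi_eq, euler]
  rw [h1, ph_sum]
  refine Finset.sum_eq_zero fun k _ => ?_
  match k with
  | 0 =>
    have : (fun μ => G.zz 0 n μ - G.rr (0 + 1) n μ) = fun _ => 0 := by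
      funext μ; exact G.h0_vanish n (by omega) μ
    rw [this]; simp [ph]
  | 1 =>
    have : (fun μ => G.zz 1 n μ - G.rr (1 + 1) n μ) = fun _ => 0 := by
      funext μ; exact G.h1_vanish n hn μ
    rw [this]; simp [ph]
  | k + 2 =>
    have h2 := h (k + 2) (by omega)
    simp only [finrank_mRep] at h2
    rw [h2, mul_zero]

/-- the map from the degree `n` part to the homology -/
noncomputable def jj (k n : ℕ) :
    (G.Zc k n ⧸ (G.Nc k n).submoduleOf (G.Zc k n)) →ₗ[𝕜] HH 𝕜 g k :=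
  Submodule.mapQ _ _ (Submodule.inclusion (by
    rintro z ⟨hz, hz'⟩
    exact ⟨((G.mem_CC k n z).1 hz).1, hz'⟩)) (by
    rintro ⟨z, hz⟩ ⟨u, hu, hu'⟩
    exact ⟨u, ((G.mem_CC (k + 1) n u).1 hu).1, hu'⟩)

theorem jj_injective (k n : ℕ) : Function.Injective (G.jj k n) := by
  rw [injective_iff_map_eq_zero]
  intro m hm
  obtain ⟨z, rfl⟩ := Submodule.Quotient.mk_surjective _ m
  have h0 := (Submodule.Quotient.mk_eq_zero ((BZ 𝕜 g k).submoduleOf (ZZ 𝕜 g k))).1 hm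
  obtain ⟨u, hu, hu'⟩ : (z : ExteriorAlgebra 𝕜 g) ∈ BZ 𝕜 g k := h0
  rw [Submodule.Quotient.mk_eq_zero]
  change (z : ExteriorAlgebra 𝕜 g) ∈ G.Nc k n
  refine ⟨pr G.BE {S | G.sdg S = n} u, ?_, ?_⟩
  · rw [SetLike.mem_coe, mem_CC]
    refine ⟨?_, (G.mem_E n _).2 (pr_mem G.BE _ _)⟩
    rw [SetLike.mem_coe, extPow_eq_sup 𝕜 G.c] at hu
    rw [extPow_eq_sup 𝕜 G.c]
    exact pr_mem' G.BE _ _ hu
  · rw [pr_n_bd, hu']
    exact pr_of_mem G.BE ((G.mem_E n _).1 ((G.mem_CC k n _).1 z.2.1).2)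

theorem jj_rep (k n : ℕ) (X : sl3 𝕜) (m : G.Zc k n ⧸ (G.Nc k n).submoduleOf (G.Zc k n)) :
    G.jj k n (G.mRep k n X m) = hRep 𝕜 g ρ k X (G.jj k n m) := by
  obtain ⟨z, rfl⟩ := Submodule.Quotient.mk_surjective _ m
  rfl

/-- **Main abstract theorem.** If no homology group of degree `k ≥ 2` contains a trivial or an
adjoint component, then the signed counting function satisfies the recursion. -/
theorem main (h0 : ∀ k, 2 ≤ k → ¬ ∃ x : HH 𝕜 g k, x ≠ 0 ∧ ∀ X, hRep 𝕜 g ρ k X x = 0)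
    (h1 : ∀ k, 2 ≤ k → ¬ ∃ f : sl3 𝕜 →ₗ[𝕜] HH 𝕜 g k, Function.Injective f ∧
      ∀ X Y : sl3 𝕜, f ⁅X, Y⁆ = hRep 𝕜 g ρ k X (f Y)) (n : ℕ) (hn : 2 ≤ n) :
    ph (chi G.dg G.wt n) (0, 0) = 0 ∧ ph (chi G.dg G.wt n) (1, 1) = 0 := by
  refine ⟨G.ph_chi n hn _ fun k hk => ?_, G.ph_chi n hn _ fun k hk => ?_⟩
  · have := G.finite_Zc k n
    refine lemW0 (G.mRep k n) ((G.wtProj k n).iSup_wtS _ _) fun m hm => ?_
    by_contra hne
    refine h0 k hk ⟨G.jj k n m, fun h => hne (G.jj_injective k n (by rw [h, map_zero])), ?_⟩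
    intro X
    rw [← jj_rep, hm, map_zero]
  · have := G.finite_Zc k n
    refine lemW1 (G.mRep k n) ((G.wtProj k n).iSup_wtS _ _) ?_
    rintro ⟨f, hf, hf'⟩
    refine h1 k hk ⟨G.jj k n ∘ₗ f, (G.jj_injective k n).comp hf, ?_⟩
    intro X Y
    rw [LinearMap.comp_apply, hf', jj_rep]
    rfl

end GrBasis

end Pool.Agent.J4H88.ABG
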