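import Pool.Agent.J4H88.ABG.LemW

/-!
# Complete reducibility for trivial and adjoint submodules of finite-dimensional weight modules
-/

namespace Pool.Agent.J4H88.ABG

attribute [local instance 100] LieRing.ofAssociativeRing

universe u v w

section

variable {𝕜 : Type u} [Field 𝕜] {M : Type v} [AddCommGroup M] [Module 𝕜 M]

/-- the invariants -/
def invt (φ : sl3 𝕜 →ₗ⁅𝕜⁆ Module.End 𝕜 M) : Submodule 𝕜 M where
  carrier := {m | ∀ X, φ X m = 0}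
  zero_mem' := fun X => map_zero _
  add_mem' := fun {a b} ha hb X => by rw [map_add, ha X, hb X, add_zero]
  smul_mem' := fun c a ha X => by rw [map_smul, ha X, smul_zero]

theorem mem_invt {φ : sl3 𝕜 →ₗ⁅𝕜⁆ Module.End 𝕜 M} {m : M} : m ∈ invt φ ↔ ∀ X, φ X m = 0 := Iff.rfl

theorem cas_apply (φ : sl3 𝕜 →ₗ⁅𝕜⁆ Module.End 𝕜 M) (w : M) :
    cas φ w = (6 : 𝕜) • (φ (f1 𝕜) (φ (e1 𝕜) w) + φ (f2 𝕜) (φ (e2 𝕜) w)
      + φ (f3 𝕜) (φ (e3 𝕜) w)) + (2 : 𝕜) • (φ (h1 𝕜) (φ (h1 𝕜) w) + φ (h1 𝕜) (φ (h2 𝕜) w)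
        + φ (h2 𝕜) (φ (h2 𝕜) w)) + (6 : 𝕜) • (φ (h1 𝕜) w + φ (h2 𝕜) w) := rfl

/-- the Casimir operator is equivariant -/
theorem cas_rep (φ : sl3 𝕜 →ₗ⁅𝕜⁆ Module.End 𝕜 M) (X : sl3 𝕜) (m : M) :
    cas φ (φ X m) = φ X (cas φ m) := by
  have S := J4H64.ABG.sys φ
  have key : cas φ (φ (h1 𝕜) m) = φ (h1 𝕜) (cas φ m) ∧ cas φ (φ (h2 𝕜) m) = φ (h2 𝕜) (cas φ m) ∧
    cas φ (φ (e1 𝕜) m) = φ (e1 𝕜) (cas φ m) ∧ cas φ (φ (e2 𝕜) m) = φ (e2 𝕜) (cas φ m) ∧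
    cas φ (φ (e3 𝕜) m) = φ (e3 𝕜) (cas φ m) ∧ cas φ (φ (f1 𝕜) m) = φ (f1 𝕜) (cas φ m) ∧
    cas φ (φ (f2 𝕜) m) = φ (f2 𝕜) (cas φ m) ∧ cas φ (φ (f3 𝕜) m) = φ (f3 𝕜) (cas φ m) := by
    simp only [cas_apply]
    generalize φ (e1 𝕜) = E1 at *
    generalize φ (e2 𝕜) = E2 at *
    generalize φ (e3 𝕜) = E3 at *
    generalize φ (f1 𝕜) = F1 at *
    generalize φ (f2 𝕜) = F2 at *
    generalize φ (f3 𝕜) = F3 at *
    generalize φ (h1 𝕜) = H1 at *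
    generalize φ (h2 𝕜) = H2 at *
    refine ⟨?_, ?_, ?_, ?_, ?_, ?_, ?_, ?_⟩ <;>
    · simp only [map_add, map_sub, map_smul, smul_add, smul_sub, S.h1e1, S.h1e2, S.h1e3, S.h2e1,
        S.h2e2, S.h2e3, S.h1f1, S.h1f2, S.h1f3, S.h2f1, S.h2f2, S.h2f3, S.e1e2, S.e1e3, S.e2e3,
        S.e1f1, S.e2f2, S.e3f3, S.e1f2, S.e2f1, S.e1f3, S.e2f3, S.e3f1, S.e3f2, S.h1h2,
        S.f2f1, S.f3f1, S.f3f2]
      module
  obtain ⟨k1, k2, k3, k4, k5, k6, k7, k8⟩ := key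
  rw [J4H64.ABG.repr φ X m, J4H64.ABG.repr φ X (cas φ m)]
  simp only [map_add, map_smul, k1, k2, k3, k4, k5, k6, k7, k8]

theorem cas_of_invt (φ : sl3 𝕜 →ₗ⁅𝕜⁆ Module.End 𝕜 M) {m : M} (hm : m ∈ invt φ) : cas φ m = 0 := by
  rw [mem_invt] at hm
  rw [cas_apply, hm, hm, hm, hm, hm]
  simp

/-- `sl_3` is perfect -/
theorem perfect (φ : sl3 𝕜 →ₗ⁅𝕜⁆ Module.End 𝕜 M) (v : M) (h : ∀ X Y, φ X (φ Y v) = 0) :
    v ∈ invt φ := by
  have hb : ∀ X Y : sl3 𝕜, φ ⁅X, Y⁆ v = 0 := by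
    intro X Y
    have := W75.comm_act φ X Y v
    rw [h, h, zero_add] at this
    exact this.symm
  intro X
  obtain ⟨a1, a2, a3, a4, a5, a6, a7, a8, a9, a10, a11, a12, a13, a14, a15, a16, a17, a18, a19,
    a20, a21, a22, a23, a24, a25, a26, a27, a28⟩ := J4H64.ABG.brs (𝕜 := 𝕜)
  have t1 : φ (e1 𝕜) v = 0 := by rw [← a27]; exact hb _ _
  have t3 : φ (e3 𝕜) v = 0 := by rw [← a13]; exact hb _ _
  have t4 : φ (f1 𝕜) v = 0 := by rw [← a25]; exact hb _ _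
  have t5 : φ (f2 𝕜) v = 0 := by rw [← a8]; exact hb _ _
  have t6 : φ (f3 𝕜) v = 0 := by rw [← a16]; exact hb _ _
  have t7 : φ (h1 𝕜) v = 0 := by rw [← a19]; exact hb _ _
  have t8 : φ (h2 𝕜) v = 0 := by rw [← a20]; exact hb _ _
  have t2 : φ (e2 𝕜) v = 0 := by
    have := hb (e3 𝕜) (f1 𝕜)
    rw [a26, map_smul, LinearMap.smul_apply] at this
    simpa using this
  rw [J4H64.ABG.repr φ X v, t1, t2, t3, t4, t5, t6, t7, t8]
  simp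

/-- the quotient by the invariants -/
noncomputable def quoI (φ : sl3 𝕜 →ₗ⁅𝕜⁆ Module.End 𝕜 M) :
    sl3 𝕜 →ₗ⁅𝕜⁆ Module.End 𝕜 (M ⧸ invt φ) where
  toFun X := (invt φ).mapQ (invt φ) (φ X) (by
    intro m hm Y
    rw [mem_invt] at hm
    rw [hm X, map_zero])
  map_add' X Y := by
    refine Submodule.linearMap_qext _ (LinearMap.ext fun u => ?_)
    refine congrArg (Submodule.Quotient.mk (p := invt φ)) ?_
    exact congrArg (fun f : Module.End 𝕜 M => f u) (map_add φ X Y)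
  map_smul' c X := by
    refine Submodule.linearMap_qext _ (LinearMap.ext fun u => ?_)
    refine congrArg (Submodule.Quotient.mk (p := invt φ)) ?_
    exact congrArg (fun f : Module.End 𝕜 M => f u) (map_smul φ c X)
  map_lie' := by
    intro X Y
    refine Submodule.linearMap_qext _ (LinearMap.ext fun u => ?_)
    refine congrArg (Submodule.Quotient.mk (p := invt φ)) ?_
    exact congrArg (fun f : Module.End 𝕜 M => f u) (LieHom.map_lie φ X Y)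

theorem quoI_mk (φ : sl3 𝕜 →ₗ⁅𝕜⁆ Module.End 𝕜 M) (X : sl3 𝕜) (m : M) :
    quoI φ X (Submodule.Quotient.mk m) = Submodule.Quotient.mk (φ X m) := rfl

theorem cas_quoI (φ : sl3 𝕜 →ₗ⁅𝕜⁆ Module.End 𝕜 M) (m : M) :
    cas (quoI φ) (Submodule.Quotient.mk m) = Submodule.Quotient.mk (cas φ m) := rfl

theorem quoI_wt (φ : sl3 𝕜 →ₗ⁅𝕜⁆ Module.End 𝕜 M) (hM : ⨆ μ, wtS φ μ = ⊤) :
    ⨆ μ, wtS (quoI φ) μ = ⊤ := by
  have h1 : (⊤ : Submodule 𝕜 (M ⧸ invt φ)) = (⊤ : Submodule 𝕜 M).map (invt φ).mkQ := by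
    rw [Submodule.map_top, Submodule.range_mkQ]
  rw [eq_top_iff, h1, ← hM, Submodule.map_iSup]
  refine iSup_mono fun μ => ?_
  rintro _ ⟨m, ⟨hm1, hm2⟩, rfl⟩
  exact ⟨congrArg (Submodule.Quotient.mk (p := invt φ)) hm1,
    congrArg (Submodule.Quotient.mk (p := invt φ)) hm2⟩

variable [CharZero 𝕜] [FiniteDimensional 𝕜 M]

theorem cas_mem_invt (φ : sl3 𝕜 →ₗ⁅𝕜⁆ Module.End 𝕜 M) (hM : ⨆ μ, wtS φ μ = ⊤) (x : M)
    (h : cas φ x ∈ invt φ) : x ∈ invt φ := by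
  by_contra hx
  have h1 : (Submodule.Quotient.mk x : M ⧸ invt φ) ≠ 0 := fun h =>
    hx ((Submodule.Quotient.mk_eq_zero _).1 h)
  have h2 : cas (quoI φ) (Submodule.Quotient.mk x) = (0 : 𝕜) • Submodule.Quotient.mk x := by
    rw [cas_quoI, zero_smul]
    exact (Submodule.Quotient.mk_eq_zero _).2 h
  obtain ⟨v, p, q, hv, hp, hq, he1, he2, hc⟩ := J4H64.ABG.job_WB (quoI φ) (quoI_wt φ hM) 0 _ h1 h2
  have hc' : (2 * ((p : ℕ) ^ 2 + p * q + q ^ 2) + 6 * (p + q) : ℕ) = 0 := by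
    have : ((2 * ((p : ℕ) ^ 2 + p * q + q ^ 2) + 6 * (p + q) : ℕ) : 𝕜) = 0 := by
      push_cast
      rw [← hc]
    exact_mod_cast this
  have hp0 : p = 0 := by omega
  have hq0 : q = 0 := by omega
  subst hp0; subst hq0
  simp only [Nat.cast_zero, zero_smul] at hp hq
  have h3 := J4H64.ABG.job_WC0 (quoI φ) v hp hq he1 he2
  obtain ⟨v, rfl⟩ := Submodule.Quotient.mk_surjective _ v
  apply hv
  rw [Submodule.Quotient.mk_eq_zero]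
  refine perfect φ v fun X Y => ?_
  have h4 := h3 Y
  rw [quoI_mk, Submodule.Quotient.mk_eq_zero] at h4
  exact h4 X

theorem isCompl_invt (φ : sl3 𝕜 →ₗ⁅𝕜⁆ Module.End 𝕜 M) (hM : ⨆ μ, wtS φ μ = ⊤) :
    IsCompl (invt φ) (LinearMap.range (cas φ)) := by
  have hd : Disjoint (invt φ) (LinearMap.range (cas φ)) := by
    rw [Submodule.disjoint_def]
    rintro _ hx ⟨y, rfl⟩
    exact cas_of_invt φ (cas_mem_invt φ hM y hx)
  have hk : LinearMap.ker (cas φ) = invt φ := by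
    apply le_antisymm
    · intro x hx
      refine cas_mem_invt φ hM x ?_
      rw [LinearMap.mem_ker.1 hx]
      exact Submodule.zero_mem _
    · intro x hx
      exact LinearMap.mem_ker.2 (cas_of_invt φ hx)
  refine ⟨hd, codisjoint_iff.2 ?_⟩
  refine Submodule.eq_top_of_disjoint _ _ ?_ hd
  have := LinearMap.finrank_range_add_finrank_ker (cas φ)
  rw [hk] at this
  omega

theorem rep_mem_range (φ : sl3 𝕜 →ₗ⁅𝕜⁆ Module.End 𝕜 M) (hM : ⨆ μ, wtS φ μ = ⊤) (X : sl3 𝕜)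
    (x : M) : φ X x ∈ LinearMap.range (cas φ) := by
  have h : x ∈ invt φ ⊔ LinearMap.range (cas φ) := by
    rw [(isCompl_invt φ hM).sup_eq_top]; trivial
  obtain ⟨y, hy, _, ⟨z, rfl⟩, rfl⟩ := Submodule.mem_sup.1 h
  rw [map_add, mem_invt.1 hy X, zero_add]
  exact ⟨φ X z, cas_rep φ X z⟩

/-- a trivial submodule is a direct summand -/
theorem triv_summand (φ : sl3 𝕜 →ₗ⁅𝕜⁆ Module.End 𝕜 M) (hM : ⨆ μ, wtS φ μ = ⊤) (m : M)
    (hm : m ≠ 0) (hinv : ∀ X, φ X m = 0) :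
    ∃ r : M →ₗ[𝕜] 𝕜, r m = 1 ∧ ∀ X x, r (φ X x) = 0 := by
  have hnot : m ∉ LinearMap.range (cas φ) := by
    intro h
    exact hm (Submodule.disjoint_def.1 (isCompl_invt φ hM).disjoint m hinv h)
  obtain ⟨f, hf, hle⟩ := Submodule.exists_le_ker_of_notMem hnot
  refine ⟨(f m)⁻¹ • f, ?_, fun X x => ?_⟩
  · rw [LinearMap.smul_apply, smul_eq_mul, inv_mul_cancel₀ hf]
  · rw [LinearMap.smul_apply, LinearMap.mem_ker.1 (hle (rep_mem_range φ hM X x)), smul_zero]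

/-- invariants lift along surjections -/
theorem lift_invt {W : Type w} [AddCommGroup W] [Module 𝕜 W] [FiniteDimensional 𝕜 W]
    (φ : sl3 𝕜 →ₗ⁅𝕜⁆ Module.End 𝕜 M) (hM : ⨆ μ, wtS φ μ = ⊤)
    (ψ : sl3 𝕜 →ₗ⁅𝕜⁆ Module.End 𝕜 W) (hW : ⨆ μ, wtS ψ μ = ⊤)
    (π : M →ₗ[𝕜] W) (hπ : ∀ X m, π (φ X m) = ψ X (π m)) (x : M) (hx : π x ∈ invt ψ) :
    ∃ y ∈ invt φ, π y = π x := by
  have h : x ∈ invt φ ⊔ LinearMap.range (cas φ) := by
    rw [(isCompl_invt φ hM).sup_eq_top]; trivial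
  obtain ⟨y, hy, _, ⟨z, rfl⟩, rfl⟩ := Submodule.mem_sup.1 h
  refine ⟨y, hy, ?_⟩
  have hc : π (cas φ z) = cas ψ (π z) := by
    simp only [cas_apply, map_add, map_smul, hπ]
  have hy' : π y ∈ invt ψ := fun X => by rw [← hπ, mem_invt.1 hy X, map_zero]
  have h1 : cas ψ (π z) ∈ invt ψ := by
    have := Submodule.sub_mem _ hx hy'
    rwa [map_add, add_sub_cancel_left, hc] at this
  rw [map_add, hc, cas_of_invt ψ (cas_mem_invt ψ hW _ h1), add_zero]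

end

section hom

variable {𝕜 : Type u} [Field 𝕜] {M : Type v} [AddCommGroup M] [Module 𝕜 M]
  {N : Type w} [AddCommGroup N] [Module 𝕜 N]

/-- the representation on `Hom(M, N)` -/
noncomputable def homR (φ : sl3 𝕜 →ₗ⁅𝕜⁆ Module.End 𝕜 M) (ψ : sl3 𝕜 →ₗ⁅𝕜⁆ Module.End 𝕜 N) :
    sl3 𝕜 →ₗ⁅𝕜⁆ Module.End 𝕜 (M →ₗ[𝕜] N) where
  toFun X :=
    { toFun := fun T => (ψ X : N →ₗ[𝕜] N) ∘ₗ T - T ∘ₗ (φ X : M →ₗ[𝕜] M)
      map_add' := fun S T => by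
        refine LinearMap.ext fun m => ?_
        simp only [LinearMap.sub_apply, LinearMap.comp_apply, LinearMap.add_apply, map_add]
        abel
      map_smul' := fun c S => by
        refine LinearMap.ext fun m => ?_
        simp only [LinearMap.sub_apply, LinearMap.comp_apply, LinearMap.smul_apply, map_smul,
          RingHom.id_apply, smul_sub] }
  map_add' X Y := by
    refine LinearMap.ext fun T => LinearMap.ext fun m => ?_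
    change ψ (X + Y) (T m) - T (φ (X + Y) m)
      = (ψ X (T m) - T (φ X m)) + (ψ Y (T m) - T (φ Y m))
    simp only [map_add, LinearMap.add_apply]
    abel
  map_smul' c X := by
    refine LinearMap.ext fun T => LinearMap.ext fun m => ?_
    change ψ (c • X) (T m) - T (φ (c • X) m) = c • (ψ X (T m) - T (φ X m))
    simp only [map_smul, LinearMap.smul_apply, smul_sub]
  map_lie' := by
    intro X Y
    refine LinearMap.ext fun T => LinearMap.ext fun m => ?_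
    change ψ ⁅X, Y⁆ (T m) - T (φ ⁅X, Y⁆ m)
      = (ψ X (ψ Y (T m) - T (φ Y m)) - (ψ Y (T (φ X m)) - T (φ Y (φ X m))))
        - (ψ Y (ψ X (T m) - T (φ X m)) - (ψ X (T (φ Y m)) - T (φ X (φ Y m))))
    have a := W75.comm_act ψ X Y (T m)
    have b := W75.comm_act φ X Y m
    simp only [map_sub]
    rw [a, b]
    simp only [map_add]
    abel

theorem homR_apply (φ : sl3 𝕜 →ₗ⁅𝕜⁆ Module.End 𝕜 M) (ψ : sl3 𝕜 →ₗ⁅𝕜⁆ Module.End 𝕜 N)
    (X : sl3 𝕜) (T : M →ₗ[𝕜] N) (m : M) : homR φ ψ X T m = ψ X (T m) - T (φ X m) := rfl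

/-- a basis of weight vectors -/
theorem exists_wt_basis (φ : sl3 𝕜 →ₗ⁅𝕜⁆ Module.End 𝕜 M) (hM : ⨆ μ, wtS φ μ = ⊤) :
    ∃ (I : Type v) (b : Module.Basis I 𝕜 M) (μ : I → ℤ × ℤ), ∀ i, b i ∈ wtS φ (μ i) := by
  have hs : ⊤ ≤ Submodule.span 𝕜 (⋃ μ, (wtS φ μ : Set M)) := by
    rw [← Submodule.iSup_eq_span, hM]
  have hb : ∀ i, Module.Basis.ofSpan hs i ∈ ⋃ μ, (wtS φ μ : Set M) := fun i =>
    Module.Basis.ofSpan_subset hs ⟨i, rfl⟩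
  choose μ hμ using fun i => Set.mem_iUnion.1 (hb i)
  exact ⟨_, Module.Basis.ofSpan hs, μ, hμ⟩

theorem homR_wt [FiniteDimensional 𝕜 M] [FiniteDimensional 𝕜 N]
    (φ : sl3 𝕜 →ₗ⁅𝕜⁆ Module.End 𝕜 M) (hM : ⨆ μ, wtS φ μ = ⊤)
    (ψ : sl3 𝕜 →ₗ⁅𝕜⁆ Module.End 𝕜 N) (hN : ⨆ μ, wtS ψ μ = ⊤) :
    ⨆ μ, wtS (homR φ ψ) μ = ⊤ := by
  classical
  obtain ⟨I, b, μ, hb⟩ := exists_wt_basis φ hM
  obtain ⟨J, c, ν, hc⟩ := exists_wt_basis ψ hN
  have : Finite I := Module.Finite.finite_basis b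
  have : Finite J := Module.Finite.finite_basis c
  obtain ⟨_⟩ := nonempty_fintype I
  obtain ⟨_⟩ := nonempty_fintype J
  rw [eq_top_iff, ← (b.linearMap c).span_eq, Submodule.span_le]
  rintro _ ⟨⟨j, i⟩, rfl⟩
  refine Submodule.mem_iSup_of_mem (ν j - μ i) ⟨?_, ?_⟩
  · refine b.ext fun i' => ?_
    rw [homR_apply, LinearMap.smul_apply, (mem_wtS.1 (hb i')).1, map_smul,
      Module.Basis.linearMap_apply_apply]
    by_cases h : i = i'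
    · subst h
      rw [if_pos rfl, (mem_wtS.1 (hc j)).1, ← sub_smul, Prod.fst_sub]
      push_cast
      rfl
    · rw [if_neg h]; simp
  · refine b.ext fun i' => ?_
    rw [homR_apply, LinearMap.smul_apply, (mem_wtS.1 (hb i')).2, map_smul,
      Module.Basis.linearMap_apply_apply]
    by_cases h : i = i'
    · subst h
      rw [if_pos rfl, (mem_wtS.1 (hc j)).2, ← sub_smul, Prod.snd_sub]
      push_cast
      rfl
    · rw [if_neg h]; simp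

/-- the adjoint representation -/
noncomputable def adR (𝕜 : Type u) [Field 𝕜] : sl3 𝕜 →ₗ⁅𝕜⁆ Module.End 𝕜 (sl3 𝕜) :=
  LieAlgebra.ad 𝕜 (sl3 𝕜)

theorem adR_apply (X Y : sl3 𝕜) : adR 𝕜 X Y = ⁅X, Y⁆ := rfl

theorem gens (X : sl3 𝕜) : X = X.1 0 1 • e1 𝕜 + X.1 1 2 • e2 𝕜 + X.1 0 2 • e3 𝕜
      + X.1 1 0 • f1 𝕜 + X.1 2 1 • f2 𝕜 + X.1 2 0 • f3 𝕜
      + X.1 0 0 • h1 𝕜 + (X.1 0 0 + X.1 1 1) • h2 𝕜 := by
  have htr := J4H64.ABG.tr22 X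
  apply Subtype.ext
  ext i j
  fin_cases i <;> fin_cases j <;>
    simp [e1, e2, e3, f1, f2, f3, h1, h2, htr]
  ring

theorem adR_wt : ⨆ μ, wtS (adR 𝕜) μ = ⊤ := by
  obtain ⟨a1, a2, a3, a4, a5, a6, a7, a8, a9, a10, a11, a12, a13, a14, a15, a16, a17, a18, a19,
    a20, a21, a22, a23, a24, a25, a26, a27, a28⟩ := J4H64.ABG.brs (𝕜 := 𝕜)
  have a29 : ⁅h2 𝕜, h1 𝕜⁆ = 0 := by rw [← lie_skew, a28, neg_zero]
  have key : ∀ (X : sl3 𝕜) (p q : ℤ), ⁅h1 𝕜, X⁆ = (p : 𝕜) • X → ⁅h2 𝕜, X⁆ = (q : 𝕜) • X →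
      X ∈ ⨆ μ, wtS (adR 𝕜) μ := fun X p q h1 h2 => Submodule.mem_iSup_of_mem (p, q) ⟨h1, h2⟩
  have k1 := key (e1 𝕜) 2 (-1) (by rw [a1]; norm_num) (by rw [a4]; norm_num)
  have k2 := key (e2 𝕜) (-1) 2 (by rw [a2]; norm_num) (by rw [a5]; norm_num)
  have k3 := key (e3 𝕜) 1 1 (by rw [a3]; norm_num) (by rw [a6]; norm_num)
  have k4 := key (f1 𝕜) (-2) 1 (by rw [a7]; norm_num) (by rw [a10]; norm_num)
  have k5 := key (f2 𝕜) 1 (-2) (by rw [a8]; norm_num) (by rw [a11]; norm_num)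
  have k6 := key (f3 𝕜) (-1) (-1) (by rw [a9]; norm_num) (by rw [a12]; norm_num)
  have k7 := key (h1 𝕜) 0 0 (by rw [lie_self]; norm_num) (by rw [a29]; norm_num)
  have k8 := key (h2 𝕜) 0 0 (by rw [a28]; norm_num) (by rw [lie_self]; norm_num)
  rw [eq_top_iff]
  rintro X -
  rw [gens X]
  exact Submodule.add_mem _ (Submodule.add_mem _ (Submodule.add_mem _ (Submodule.add_mem _
    (Submodule.add_mem _ (Submodule.add_mem _ (Submodule.add_mem _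
      (Submodule.smul_mem _ _ k1) (Submodule.smul_mem _ _ k2)) (Submodule.smul_mem _ _ k3))
      (Submodule.smul_mem _ _ k4)) (Submodule.smul_mem _ _ k5)) (Submodule.smul_mem _ _ k6))
      (Submodule.smul_mem _ _ k7)) (Submodule.smul_mem _ _ k8)

/-- an adjoint submodule is a direct summand -/
theorem adj_summand [CharZero 𝕜] [FiniteDimensional 𝕜 M]
    (φ : sl3 𝕜 →ₗ⁅𝕜⁆ Module.End 𝕜 M) (hM : ⨆ μ, wtS φ μ = ⊤) (f : sl3 𝕜 →ₗ[𝕜] M)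
    (hf : Function.Injective f) (hf' : ∀ X Y : sl3 𝕜, f ⁅X, Y⁆ = φ X (f Y)) :
    ∃ r : M →ₗ[𝕜] sl3 𝕜, (∀ X, r (f X) = X) ∧ ∀ X m, r (φ X m) = ⁅X, r m⁆ := by
  obtain ⟨r0, hr0⟩ := f.exists_leftInverse_of_injective (LinearMap.ker_eq_bot.2 hf)
  let π : (M →ₗ[𝕜] sl3 𝕜) →ₗ[𝕜] (sl3 𝕜 →ₗ[𝕜] sl3 𝕜) :=
    { toFun := fun T => T ∘ₗ f
      map_add' := fun S T => LinearMap.add_comp _ _ _
      map_smul' := fun c S => LinearMap.smul_comp _ _ _ }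
  have hπ : ∀ X T, π (homR φ (adR 𝕜) X T) = homR (adR 𝕜) (adR 𝕜) X (π T) := by
    intro X T
    refine LinearMap.ext fun Y => ?_
    change homR φ (adR 𝕜) X T (f Y) = homR (adR 𝕜) (adR 𝕜) X (T ∘ₗ f) Y
    rw [homR_apply, homR_apply, LinearMap.comp_apply, LinearMap.comp_apply, adR_apply X Y, hf']
  have hx : π r0 ∈ invt (homR (adR 𝕜) (adR 𝕜)) := by
    intro X
    have : π r0 = LinearMap.id := hr0
    rw [this]
    refine LinearMap.ext fun Y => ?_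
    rw [homR_apply, LinearMap.id_apply, LinearMap.id_apply, sub_self]
    rfl
  obtain ⟨r, hr, hr'⟩ := lift_invt (homR φ (adR 𝕜)) (homR_wt φ hM _ adR_wt)
    (homR (adR 𝕜) (adR 𝕜)) (homR_wt _ adR_wt _ adR_wt) π hπ r0 hx
  refine ⟨r, fun X => ?_, fun X m => ?_⟩
  · have := congrArg (fun T : sl3 𝕜 →ₗ[𝕜] sl3 𝕜 => T X) (hr'.trans hr0)
    exact this
  · have := congrArg (fun T : M →ₗ[𝕜] sl3 𝕜 => T m) (hr X)
    have h2 : ⁅X, r m⁆ - r (φ X m) = 0 := this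
    exact (sub_eq_zero.1 h2).symm

end hom

end Pool.Agent.J4H88.ABG
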