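import Pool.Agent.J4H88.ABG.Main
import Pool.Agent.J4H88.ABG.Summand

/-!
# The main abstract theorem for direct summands
-/

namespace Pool.Agent.J4H88.ABG

attribute [local instance 100] LieRing.ofAssociativeRing

universe u v w

open ExteriorAlgebra

namespace GrBasis

variable {𝕜 : Type u} [Field 𝕜] {g : Type u} [LieRing g] [LieAlgebra 𝕜 g]
  {ρ : sl3 𝕜 →ₗ⁅𝕜⁆ LieDerivation 𝕜 g g} {a β : ℕ → ℕ} (G : GrBasis 𝕜 g ρ a β) [CharZero 𝕜]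

theorem pr_n_rep (X : sl3 𝕜) (n : ℕ) (u : ExteriorAlgebra 𝕜 g) :
    extRep 𝕜 g ρ X (pr G.BE {S | G.sdg S = n} u) = pr G.BE {S | G.sdg S = n} (extRep 𝕜 g ρ X u) := by
  have key : ∀ S, extRep 𝕜 g ρ X (G.BE S) ∈ sup G.BE {T | G.sdg T = G.sdg S} := by
    intro S
    have h1 : G.BE S ∈ G.CC S.card (G.sdg S) := basis_mem_sup G.BE ⟨rfl, rfl⟩
    exact sup_mono G.BE (fun T hT => hT.2) (G.rep_CC X h1)
  refine pr_comm G.BE _ _ (fun S hS => ?_) (fun S hS => ?_) u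
  · have := key S
    rwa [show G.sdg S = n from hS] at this
  · refine sup_mono G.BE ?_ (key S)
    intro T hT hT'
    exact hS (hT.symm.trans hT')

theorem pr_n_CC {k n : ℕ} {u : ExteriorAlgebra 𝕜 g} (hu : u ∈ ⋀[𝕜]^k g) :
    pr G.BE {S | G.sdg S = n} u ∈ G.CC k n := by
  rw [mem_CC]
  refine ⟨?_, (G.mem_E n _).2 (pr_mem G.BE _ _)⟩
  rw [extPow_eq_sup 𝕜 G.c] at hu ⊢
  exact pr_mem' G.BE _ _ hu

/-- the projection of the homology onto its part of degree `n` -/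
noncomputable def pn (k n : ℕ) :
    HH 𝕜 g k →ₗ[𝕜] (G.Zc k n ⧸ (G.Nc k n).submoduleOf (G.Zc k n)) :=
  Submodule.mapQ _ _ (((pr G.BE {S | G.sdg S = n}) ∘ₗ (ZZ 𝕜 g k).subtype).codRestrict
    (G.Zc k n) (by
      rintro ⟨z, hz, hz'⟩
      refine ⟨G.pr_n_CC hz, ?_⟩
      change bd 𝕜 g (pr G.BE {S | G.sdg S = n} z) = 0
      rw [pr_n_bd, show bd 𝕜 g z = 0 from hz', map_zero])) (by
    rintro ⟨z, hz⟩ ⟨u, hu, hu'⟩
    refine ⟨pr G.BE {S | G.sdg S = n} u, G.pr_n_CC hu, ?_⟩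
    rw [pr_n_bd, hu']
    rfl)

theorem pn_jj (k n : ℕ) (m : G.Zc k n ⧸ (G.Nc k n).submoduleOf (G.Zc k n)) :
    G.pn k n (G.jj k n m) = m := by
  obtain ⟨z, rfl⟩ := Submodule.Quotient.mk_surjective _ m
  refine congrArg (Submodule.Quotient.mk (p := (G.Nc k n).submoduleOf (G.Zc k n)))
    (Subtype.ext ?_)
  exact pr_of_mem G.BE ((G.mem_E n _).1 ((G.mem_CC k n _).1 z.2.1).2)

theorem pn_rep (k n : ℕ) (X : sl3 𝕜) (y : HH 𝕜 g k) :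
    G.pn k n (hRep 𝕜 g ρ k X y) = G.mRep k n X (G.pn k n y) := by
  obtain ⟨z, rfl⟩ := Submodule.Quotient.mk_surjective _ y
  refine congrArg (Submodule.Quotient.mk (p := (G.Nc k n).submoduleOf (G.Zc k n)))
    (Subtype.ext ?_)
  exact (G.pr_n_rep X n z).symm

/-- **Main abstract theorem**, for direct summands. -/
theorem main2 (h0 : ∀ k, 2 ≤ k → ¬ ∃ (x : HH 𝕜 g k) (r : HH 𝕜 g k →ₗ[𝕜] 𝕜), r x = 1 ∧
      (∀ X, hRep 𝕜 g ρ k X x = 0) ∧ ∀ X y, r (hRep 𝕜 g ρ k X y) = 0)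
    (h1 : ∀ k, 2 ≤ k → ¬ ∃ (f : sl3 𝕜 →ₗ[𝕜] HH 𝕜 g k) (r : HH 𝕜 g k →ₗ[𝕜] sl3 𝕜),
      (∀ X, r (f X) = X) ∧ (∀ X Y : sl3 𝕜, f ⁅X, Y⁆ = hRep 𝕜 g ρ k X (f Y)) ∧
      ∀ X y, r (hRep 𝕜 g ρ k X y) = ⁅X, r y⁆) (n : ℕ) (hn : 2 ≤ n) :
    ph (chi G.dg G.wt n) (0, 0) = 0 ∧ ph (chi G.dg G.wt n) (1, 1) = 0 := by
  refine ⟨G.ph_chi n hn _ fun k hk => ?_, G.ph_chi n hn _ fun k hk => ?_⟩
  · have := G.finite_Zc k n
    have hw := (G.wtProj k n).iSup_wtS (G.rep_Zc k n) (G.rep_Nc k n)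
    refine lemW0 (G.mRep k n) hw fun m hm => ?_
    by_contra hne
    obtain ⟨r, hr, hr'⟩ := triv_summand (G.mRep k n) hw m hne hm
    refine h0 k hk ⟨G.jj k n m, r ∘ₗ G.pn k n, ?_, fun X => ?_, fun X y => ?_⟩
    · rw [LinearMap.comp_apply, pn_jj, hr]
    · rw [← jj_rep, hm, map_zero]
    · rw [LinearMap.comp_apply, pn_rep, hr']
  · have := G.finite_Zc k n
    have hw := (G.wtProj k n).iSup_wtS (G.rep_Zc k n) (G.rep_Nc k n)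
    refine lemW1 (G.mRep k n) hw ?_
    rintro ⟨f, hf, hf'⟩
    obtain ⟨r, hr, hr'⟩ := adj_summand (G.mRep k n) hw f hf hf'
    refine h1 k hk ⟨G.jj k n ∘ₗ f, r ∘ₗ G.pn k n, fun X => ?_, fun X Y => ?_, fun X y => ?_⟩
    · rw [LinearMap.comp_apply, LinearMap.comp_apply, pn_jj, hr]
    · rw [LinearMap.comp_apply, hf', jj_rep]
      rfl
    · rw [LinearMap.comp_apply, pn_rep, hr']
      rfl

end GrBasis

end Pool.Agent.J4H88.ABG
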